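import Mathlib

/-!
# Rank certificates and lifting of matrices to subrings
-/

namespace MP_b07157_agE1

open Finset Module Matrix

section Field

variable {A B : Type*} [Fintype A] [Fintype B] [DecidableEq A] [DecidableEq B]
variable {K : Type*} [Field K]

theorem rank_factor (M : Matrix A B K) :
    ∃ (X : Matrix A (Fin M.rank) K) (Y : Matrix (Fin M.rank) B K), M = X * Y := by
  let W := LinearMap.range M.mulVecLin
  let β : Basis (Fin M.rank) K W := finBasisOfFinrankEq K W rfl
  have hmem : ∀ b : B, M.mulVec (Pi.single b 1) ∈ W := fun b => ⟨Pi.single b 1, rfl⟩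
  refine ⟨fun a i => (β i : A → K) a, fun i b => β.repr ⟨M.mulVec (Pi.single b 1), hmem b⟩ i, ?_⟩
  ext a b
  have h := β.sum_repr ⟨M.mulVec (Pi.single b 1), hmem b⟩
  have h2 := congrArg (fun w : W => (w : A → K) a) h
  simp only [Submodule.coe_sum, Submodule.coe_smul, Finset.sum_apply, Pi.smul_apply,
    smul_eq_mul] at h2
  have h3 : M a b = (M.mulVec (Pi.single b 1)) a := by
    rw [Matrix.mulVec_single_one, Matrix.col_apply]
  rw [Matrix.mul_apply, h3, ← h2]
  exact Finset.sum_congr rfl fun i _ => mul_comm _ _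

theorem rank_unit (M : Matrix A B K) :
    ∃ (P : Matrix (Fin M.rank) A K) (Q : Matrix B (Fin M.rank) K), P * M * Q = 1 := by
  let W := LinearMap.range M.mulVecLin
  let β : Basis (Fin M.rank) K W := finBasisOfFinrankEq K W rfl
  have hq : ∀ i, ∃ q : B → K, M.mulVec q = (β i : A → K) := fun i => (β i).2
  choose q hq using hq
  let T : (Fin M.rank → K) →ₗ[K] (A → K) := W.subtype ∘ₗ β.equivFun.symm.toLinearMap
  have hT : Function.Injective T := W.injective_subtype.comp β.equivFun.symm.injective
  obtain ⟨g, hg⟩ := T.exists_leftInverse_of_injective (LinearMap.ker_eq_bot.2 hT)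
  let Q : Matrix B (Fin M.rank) K := fun b i => q i b
  refine ⟨LinearMap.toMatrix' g, Q, ?_⟩
  have h1 : ∀ i, T (Pi.single i 1) = (β i : A → K) := by
    intro i
    simp [T]
  ext i j
  have h2 : (LinearMap.toMatrix' g * M * Q) i j =
      (g (M.mulVec (q j))) i := by
    have h3 : g (M.mulVec (q j)) = (LinearMap.toMatrix' g).mulVec (M.mulVec (q j)) := by
      rw [LinearMap.toMatrix'_mulVec]
    rw [h3, Matrix.mulVec_mulVec]
    rfl
  rw [h2, hq, ← h1]
  have h4 := LinearMap.congr_fun hg (Pi.single j 1)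
  rw [LinearMap.comp_apply, LinearMap.id_apply] at h4
  rw [h4, Matrix.one_apply, Pi.single_apply]

end Field

section Map

variable {A B : Type*} [Fintype A] [Fintype B] [DecidableEq A] [DecidableEq B]
variable {R k : Type*} [CommRing R] [Field k] (φ : R →+* k)

theorem rank_map_le {r : ℕ} (M : Matrix A B R) (X : Matrix A (Fin r) R) (Y : Matrix (Fin r) B R)
    (h : M = X * Y) : (M.map φ).rank ≤ r := by
  rw [h, Matrix.map_mul]
  exact (Matrix.rank_mul_le_left _ _).trans ((Matrix.rank_le_card_width _).trans (by simp))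

theorem le_rank_map {r : ℕ} (M : Matrix A B R) (P : Matrix (Fin r) A R) (Q : Matrix B (Fin r) R)
    (h : P * M * Q = 1) : r ≤ (M.map φ).rank := by
  have h1 : (P.map φ) * (M.map φ) * (Q.map φ) = 1 := by
    rw [← Matrix.map_mul, ← Matrix.map_mul, h, Matrix.map_one _ (map_zero φ) (map_one φ)]
  have h2 : ((P.map φ) * (M.map φ) * (Q.map φ)).rank = r := by
    rw [h1, Matrix.rank_one, Fintype.card_fin]
  calc r = ((P.map φ) * (M.map φ) * (Q.map φ)).rank := h2.symm
    _ ≤ ((P.map φ) * (M.map φ)).rank := Matrix.rank_mul_le_left _ _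
    _ ≤ (M.map φ).rank := Matrix.rank_mul_le_right _ _

end Map

section Lift

variable {K : Type} [Field K]

/-- lifting a matrix with entries in a subalgebra -/
theorem exists_lift {A B : Type*} (R : Subalgebra ℤ K) (M : Matrix A B K)
    (h : ∀ a b, M a b ∈ R) : ∃ M' : Matrix A B R, M'.map (algebraMap R K) = M :=
  ⟨fun a b => ⟨M a b, h a b⟩, rfl⟩

theorem lift_inj {A B : Type*} (R : Subalgebra ℤ K) (M M' : Matrix A B R)
    (h : M.map (algebraMap R K) = M'.map (algebraMap R K)) : M = M' := by
  ext a b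
  have := congrFun (congrFun h a) b
  simpa using this

end Lift

end MP_b07157_agE1
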