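import Mathlib

/-!
# Jacobson's formula for `(D + h)^p` when `D h = h (D + μ)`
-/

namespace MP_b07157_agE1

open Finset

section Ring

variable {R : Type*} [Ring R]

/-- Falling factorials `D (D - μ) ... (D - (k-1) μ)`. -/
def ff (D μ : R) : ℕ → R
  | 0 => 1
  | (k+1) => ff D μ k * (D - (k : R) * μ)

theorem ff_comm (D μ : R) (hc : Commute μ D) (k : ℕ) : Commute (ff D μ k) D := by
  induction k with
  | zero => exact Commute.one_left _
  | succ k ih =>
    refine Commute.mul_left ih ?_
    refine Commute.sub_left (Commute.refl D) ?_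
    exact (Nat.cast_commute k D).mul_left hc

theorem ff_comm_mu (D μ : R) (hc : Commute μ D) (k : ℕ) : Commute (ff D μ k) μ := by
  induction k with
  | zero => exact Commute.one_left _
  | succ k ih =>
    refine Commute.mul_left ih ?_
    refine Commute.sub_left hc.symm ?_
    exact (Nat.cast_commute k μ).mul_left (Commute.refl μ)

/-- `ff_j h = h ff_j + j μ h ff_(j-1)`. -/
theorem ff_mul_h (D h μ : R) (hD : Commute μ D) (hh : Commute μ h)
    (hDh : D * h = h * (D + μ)) (j : ℕ) :
    ff D μ (j+1) * h = h * ff D μ (j+1) + ((j+1 : ℕ) : R) * (μ * (h * ff D μ j)) := by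
  induction j with
  | zero =>
    simp only [ff, Nat.cast_zero, zero_mul, sub_zero, one_mul, zero_add, Nat.cast_one, mul_one]
    rw [hDh, mul_add, hh.eq]
  | succ j ih =>
    have e1 : ff D μ (j+1+1) = ff D μ (j+1) * (D - ((j+1:ℕ) : R) * μ) := rfl
    have e2 : ff D μ (j+1) = ff D μ j * (D - (j : R) * μ) := rfl
    have cc := ff_comm D μ hD (j+1)
    have cm := ff_comm_mu D μ hD (j+1)
    have hk : Commute (((j+1:ℕ) : R)) h := Nat.cast_commute _ _
    have s1 : (D - ((j+1:ℕ) : R) * μ) * h = h * (D - (j : R) * μ) := by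
      have : ((j+1:ℕ) : R) * μ * h = h * (((j+1:ℕ) : R) * μ) := by
        rw [mul_assoc, hh.eq, ← mul_assoc, hk.eq, mul_assoc]
      rw [sub_mul, hDh, this, ← mul_sub]
      congr 1
      push_cast
      noncomm_ring
    rw [e1, mul_assoc, s1, ← mul_assoc, ih, add_mul]
    have cmj : Commute (ff D μ (j+1)) ((j+1:ℕ) : R) := (Nat.cast_commute _ _).symm
    have e3 : h * ff D μ (j+1) * (D - (j:R) * μ) =
        h * (ff D μ (j+1) * (D - ((j+1:ℕ) : R) * μ)) + μ * (h * ff D μ (j+1)) := by
      have : (D - (j:R) * μ) = (D - ((j+1:ℕ) : R) * μ) + μ := by push_cast; noncomm_ring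
      rw [this, mul_add, mul_assoc, mul_assoc, cm.eq, ← mul_assoc h μ, ← hh.eq, mul_assoc μ h]
    have e4 : ((j+1 : ℕ) : R) * (μ * (h * ff D μ j)) * (D - (j:R) * μ) =
        ((j+1 : ℕ) : R) * (μ * (h * ff D μ (j+1))) := by
      rw [e2]; simp only [mul_assoc]
    rw [e3, e4]
    push_cast
    noncomm_ring

/-- Vandermonde formula for falling factorials of `D + h`. -/
theorem ff_add (D h μ : R) (hD : Commute μ D) (hh : Commute μ h)
    (hDh : D * h = h * (D + μ)) (k : ℕ) :
    ff (D + h) μ k = ∑ ij ∈ antidiagonal k, (k.choose ij.1) • (h ^ ij.1 * ff D μ ij.2) := by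
  induction k with
  | zero => simp [ff]
  | succ k ih =>
    rw [Finset.sum_antidiagonal_choose_succ_nsmul (fun i j => h ^ i * ff D μ j)]
    have e1 : ff (D + h) μ (k+1) = ff (D + h) μ k * (D + h - (k : R) * μ) := rfl
    rw [e1, ih]
    have hsplit : ∀ x : R, x * (D + h - (k : R) * μ) = x * (D - (k:R) * μ) + x * h := by
      intro x; noncomm_ring
    rw [hsplit]
    -- first part
    have p1 : (∑ ij ∈ antidiagonal k, (k.choose ij.1) • (h ^ ij.1 * ff D μ ij.2)) *
        (D - (k:R) * μ) =
        (∑ ij ∈ antidiagonal k, (k.choose ij.1) • (h ^ ij.1 * ff D μ (ij.2+1))) -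
        (∑ ij ∈ antidiagonal k, (k.choose ij.1 * ij.1) • (μ * (h ^ ij.1 * ff D μ ij.2))) := by
      rw [Finset.sum_mul, ← Finset.sum_sub_distrib]
      refine Finset.sum_congr rfl ?_
      rintro ⟨i, j⟩ hij
      have hk : i + j = k := by simpa using hij
      simp only
      have e2 : ff D μ (j+1) = ff D μ j * (D - (j : R) * μ) := rfl
      have cm := ff_comm_mu D μ hD j
      have c2 : Commute (h ^ i) μ := (hh.symm).pow_left i
      have e3 : (D - (k:R) * μ) = (D - (j:R) * μ) - (i:R) * μ := by
        rw [← hk]; push_cast; noncomm_ring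
      have e4 : h ^ i * ff D μ j * ((i:R) * μ) = i • (μ * (h ^ i * ff D μ j)) := by
        have cx : Commute (h ^ i * ff D μ j) μ := c2.mul_left cm
        have cy : Commute (h ^ i * ff D μ j) (i:R) := (Nat.cast_commute _ _).symm
        rw [← mul_assoc, cy.eq, mul_assoc, cx.eq, nsmul_eq_mul]
      rw [e3, smul_mul_assoc, mul_sub, e4, e2, smul_sub, mul_assoc, mul_smul]
    have p2 : (∑ ij ∈ antidiagonal k, (k.choose ij.1) • (h ^ ij.1 * ff D μ ij.2)) * h =
        (∑ ij ∈ antidiagonal k, (k.choose ij.2) • (h ^ (ij.1+1) * ff D μ ij.2)) +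
        (∑ ij ∈ antidiagonal k, (k.choose ij.1 * ij.1) • (μ * (h ^ ij.1 * ff D μ ij.2))) := by
      have q1 : (∑ ij ∈ antidiagonal k, (k.choose ij.1) • (h ^ ij.1 * ff D μ ij.2)) * h =
          (∑ ij ∈ antidiagonal k, (k.choose ij.2) • (h ^ (ij.1+1) * ff D μ ij.2)) +
          (∑ ij ∈ antidiagonal k, (k.choose ij.1 * ij.2) •
            (μ * (h ^ (ij.1+1) * ff D μ (ij.2-1)))) := by
        rw [Finset.sum_mul, ← Finset.sum_add_distrib]
        refine Finset.sum_congr rfl ?_
        rintro ⟨i, j⟩ hij
        have hk : i + j = k := by simpa using hij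
        simp only
        have hch : k.choose i = k.choose j := by
          rw [← hk, Nat.choose_symm_add]
        rcases j with _ | j
        · simp only [ff, mul_one, Nat.mul_zero, zero_smul, add_zero, hch]
          rw [smul_mul_assoc, pow_succ]
        · have c2 : Commute (h ^ i) μ := (hh.symm).pow_left i
          rw [smul_mul_assoc, mul_assoc, ff_mul_h D h μ hD hh hDh j, mul_add, smul_add]
          congr 1
          · rw [hch, pow_succ]; simp only [mul_assoc]
          · rw [mul_smul, Nat.add_sub_cancel]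
            congr 1
            have c3 : Commute (h^i) (((j+1:ℕ) : R)) := (Nat.cast_commute _ _).symm
            rw [← mul_assoc, c3.eq, mul_assoc, ← mul_assoc (h^i) μ, c2.eq, nsmul_eq_mul, pow_succ]
            simp only [mul_assoc]
      rw [q1]
      congr 1
      -- reindex
      rcases k with _ | k
      · simp
      · rw [Finset.Nat.sum_antidiagonal_succ', Finset.Nat.sum_antidiagonal_succ]
        simp only [Nat.mul_zero, zero_smul, add_zero, zero_add]
        refine Finset.sum_congr rfl ?_
        rintro ⟨i, j⟩ hij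
        have hk : i + j = k := by simpa using hij
        simp only [Nat.add_sub_cancel]
        congr 1
        have := Nat.choose_succ_right_eq (k+1) i
        rw [this]
        congr 1
        omega
    rw [p1, p2]
    abel

end Ring

section CharP

open Polynomial

variable (p : ℕ) [hp : Fact p.Prime]

/-- `prod_(i < p) (X - i m) = X^p - m^(p-1) X` over the prime field. -/
theorem prod_range_zmod (m : ZMod p) :
    ∏ i ∈ Finset.range p, ((X : (ZMod p)[X]) - C ((i : ZMod p) * m)) =
      X ^ p - C (m ^ (p-1)) * X := by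
  classical
  have hp2 : 2 ≤ p := hp.out.two_le
  by_cases hm : m = 0
  · subst hm
    rw [zero_pow (by omega)]
    simp
  · rw [ZMod.pow_card_sub_one_eq_one hm]
    have h1 : ∏ i ∈ Finset.range p, ((X : (ZMod p)[X]) - C ((i : ZMod p) * m)) =
        ∏ a : ZMod p, ((X : (ZMod p)[X]) - C a) := by
      refine Finset.prod_bij (fun i _ => (i : ZMod p) * m) (fun _ _ => Finset.mem_univ _) ?_ ?_
        (fun _ _ => rfl)
      · intro a ha b hb hab
        have h2 : (a : ZMod p) = (b : ZMod p) := mul_right_cancel₀ hm hab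
        rw [ZMod.natCast_eq_natCast_iff'] at h2
        rw [Finset.mem_range] at ha hb
        rwa [Nat.mod_eq_of_lt ha, Nat.mod_eq_of_lt hb] at h2
      · intro b _
        refine ⟨(b / m).val, Finset.mem_range.2 (ZMod.val_lt _), ?_⟩
        rw [ZMod.natCast_zmod_val, div_mul_cancel₀ _ hm]
    rw [h1]
    have hr := FiniteField.roots_X_pow_card_sub_X (ZMod p)
    rw [ZMod.card] at hr
    have hmon : (X ^ p - X : (ZMod p)[X]).Monic :=
      (monic_X_pow_sub (by rw [degree_X]; exact_mod_cast hp.out.one_lt))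
    have hcard : Multiset.card (X ^ p - X : (ZMod p)[X]).roots =
        (X ^ p - X : (ZMod p)[X]).natDegree := by
      rw [hr, FiniteField.X_pow_card_sub_X_natDegree_eq _ hp.out.one_lt]
      simp [ZMod.card]
    have := prod_multiset_X_sub_C_of_monic_of_roots_card_eq hmon hcard
    rw [hr] at this
    rw [map_one, one_mul, ← this]
    rfl

variable {R : Type*} [Ring R] [CharP R p]

theorem ff_char (D : R) (z : ℤ) :
    ff D (z : R) p = D ^ p - (z : R) ^ (p-1) * D := by
  letI := ZMod.algebra R p
  have h1 : ∀ k : ℕ, ff D (z : R) k = aeval D (∏ i ∈ Finset.range k,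
      ((X : (ZMod p)[X]) - C ((i : ZMod p) * (z : ZMod p)))) := by
    intro k
    induction k with
    | zero => simp [ff]
    | succ k ih =>
      rw [Finset.prod_range_succ, map_mul, ← ih]
      simp [ff]
  rw [h1, prod_range_zmod]
  simp

/-- Jacobson's formula in the eigenvector case. -/
theorem jacobson (D h : R) (z : ℤ) (hDh : D * h = h * (D + (z : R))) :
    (D + h) ^ p = D ^ p + h ^ p + (z : R) ^ (p-1) * h := by
  have hD : Commute (z : R) D := Int.cast_commute _ _
  have hh : Commute (z : R) h := Int.cast_commute _ _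
  have h1 := ff_add D h (z : R) hD hh hDh p
  rw [ff_char p (D + h) z] at h1
  have h2 : ∑ ij ∈ antidiagonal p, (p.choose ij.1) • (h ^ ij.1 * ff D (z : R) ij.2) =
      ff D (z : R) p + h ^ p := by
    have hp0 : 0 < p := hp.out.pos
    obtain ⟨q, rfl⟩ : ∃ q, p = q + 1 := ⟨p - 1, by omega⟩
    rw [Finset.Nat.sum_antidiagonal_eq_sum_range_succ_mk, Finset.sum_range_succ,
      Finset.sum_range_succ']
    simp only [Nat.choose_zero_right, one_smul, pow_zero, one_mul, Nat.sub_zero,
      Nat.choose_self, Nat.sub_self, ff, mul_one]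
    have h3 : ∑ x ∈ Finset.range q, ((q+1).choose (x+1)) •
        (h ^ (x+1) * ff D (z:R) (q + 1 - (x+1))) = 0 := by
      refine Finset.sum_eq_zero ?_
      intro x hx
      rw [Finset.mem_range] at hx
      have hd : (q+1) ∣ (q+1).choose (x+1) :=
        hp.out.dvd_choose_self (by omega) (by omega)
      rw [← Nat.cast_smul_eq_nsmul R, (CharP.cast_eq_zero_iff R (q+1) _).2 hd, zero_smul]
    rw [h3, zero_add]
  rw [h2, ff_char p D z] at h1
  have h3 : (D + h) ^ p = ((D + h) ^ p - (z:R) ^ (p-1) * (D + h)) + (z:R) ^ (p-1) * (D + h) := by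
    abel
  rw [h3, h1]
  noncomm_ring

end CharP

end MP_b07157_agE1
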