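import Mathlib
import Pool.Agent.Lib.MP_b07157_agE1.Jacobson

/-!
# The operators `D_l = θ_l + b_l + F_l` on `k[ℤ^n]`
-/

namespace MP_b07157_agE1

open Finset

abbrev Lat (n : ℕ) := Fin n → ℤ

section Basic

variable {n : ℕ} {k : Type*} [CommRing k]

/-- shift by `v` -/
noncomputable def sh (v : Lat n) : Module.End k (Lat n →₀ k) :=
  Finsupp.lmapDomain k k (fun m => m + v)

@[simp] theorem sh_single (v m : Lat n) (r : k) :
    sh v (Finsupp.single m r) = Finsupp.single (m + v) r := by
  simp [sh, Finsupp.lmapDomain_apply]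

theorem sh_mul (u v : Lat n) : (sh u : Module.End k (Lat n →₀ k)) * sh v = sh (u + v) := by
  refine Finsupp.lhom_ext' fun m => LinearMap.ext_ring ?_
  simp [Module.End.mul_apply, add_assoc, add_comm u v]

theorem sh_zero : (sh 0 : Module.End k (Lat n →₀ k)) = 1 := by
  refine Finsupp.lhom_ext' fun m => LinearMap.ext_ring ?_
  simp

theorem sh_pow (v : Lat n) (j : ℕ) :
    (sh v : Module.End k (Lat n →₀ k)) ^ j = sh (j • v) := by
  induction j with
  | zero => simp [sh_zero]
  | succ j ih => rw [pow_succ, ih, sh_mul, succ_nsmul]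

theorem sh_comm (u v : Lat n) : Commute (sh u : Module.End k (Lat n →₀ k)) (sh v) := by
  unfold Commute SemiconjBy
  rw [sh_mul, sh_mul, add_comm]

/-- `θ_l + b_l` -/
noncomputable def th (b : Fin n → k) (l : Fin n) : Module.End k (Lat n →₀ k) :=
  Finsupp.linearCombination k (fun m => Finsupp.single m ((m l : k) + b l))

@[simp] theorem th_single (b : Fin n → k) (l : Fin n) (m : Lat n) (r : k) :
    th b l (Finsupp.single m r) = Finsupp.single m (((m l : k) + b l) * r) := by
  rw [th, Finsupp.linearCombination_single, Finsupp.smul_single, smul_eq_mul, mul_comm]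

theorem th_comm (b : Fin n → k) (l l' : Fin n) : Commute (th b l) (th b l') := by
  unfold Commute SemiconjBy
  refine Finsupp.lhom_ext' fun m => LinearMap.ext_ring ?_
  simp only [LinearMap.comp_apply, Finsupp.lsingle_apply, Module.End.mul_apply, th_single,
    mul_one]
  rw [mul_comm]

theorem th_mul_sh (b : Fin n → k) (l : Fin n) (v : Lat n) :
    th b l * sh v = sh v * th b l + ((v l : k)) • sh v := by
  refine Finsupp.lhom_ext' fun m => LinearMap.ext_ring ?_
  simp only [LinearMap.comp_apply, Finsupp.lsingle_apply, Module.End.mul_apply, sh_single,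
    th_single, mul_one, LinearMap.add_apply, LinearMap.smul_apply, Finsupp.smul_single,
    smul_eq_mul, Pi.add_apply, Int.cast_add]
  rw [← Finsupp.single_add]
  congr 1
  ring

/-- multiplication with `F_l = ∑ c_v v_l x^v` -/
noncomputable def Fop (S : Finset (Lat n)) (c : Lat n → k) (l : Fin n) :
    Module.End k (Lat n →₀ k) := ∑ v ∈ S, (c v * (v l : k)) • sh v

theorem Fop_single (S : Finset (Lat n)) (c : Lat n → k) (l : Fin n) (m : Lat n) (r : k) :
    Fop S c l (Finsupp.single m r) =
      ∑ v ∈ S, Finsupp.single (m + v) (c v * (v l : k) * r) := by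
  simp [Fop, LinearMap.sum_apply, Finsupp.smul_single]

theorem sh_comm_Fop (S : Finset (Lat n)) (c : Lat n → k) (l : Fin n) (u : Lat n) :
    Commute (sh u) (Fop S c l) := by
  unfold Fop
  exact Commute.sum_right _ _ _ fun v _ => (sh_comm u v).smul_right _

theorem Fop_comm (S : Finset (Lat n)) (c : Lat n → k) (l l' : Fin n) :
    Commute (Fop S c l) (Fop S c l') := by
  unfold Fop
  exact Commute.sum_left _ _ _ fun v _ => (sh_comm_Fop S c l' v).smul_left _

/-- `D_l = θ_l + b_l + F_l` -/
noncomputable def Dop (S : Finset (Lat n)) (c : Lat n → k) (b : Fin n → k) (l : Fin n) :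
    Module.End k (Lat n →₀ k) := th b l + Fop S c l

theorem th_mul_Fop (S : Finset (Lat n)) (c : Lat n → k) (b : Fin n → k) (l l' : Fin n) :
    th b l * Fop S c l' = Fop S c l' * th b l +
      ∑ v ∈ S, (c v * (v l : k) * (v l' : k)) • sh v := by
  unfold Fop
  rw [Finset.mul_sum, Finset.sum_mul, ← Finset.sum_add_distrib]
  refine Finset.sum_congr rfl fun v _ => ?_
  rw [mul_smul_comm, th_mul_sh, smul_add, smul_mul_assoc, smul_smul]
  congr 2
  ring

theorem Dop_comm (S : Finset (Lat n)) (c : Lat n → k) (b : Fin n → k) (l l' : Fin n) :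
    Commute (Dop S c b l) (Dop S c b l') := by
  unfold Commute SemiconjBy Dop
  have h1 := th_mul_Fop S c b l l'
  have h2 := th_mul_Fop S c b l' l
  have h3 : ∑ v ∈ S, (c v * (v l : k) * (v l' : k)) • (sh v : Module.End k (Lat n →₀ k)) =
      ∑ v ∈ S, (c v * (v l' : k) * (v l : k)) • sh v := by
    refine Finset.sum_congr rfl fun v _ => ?_
    congr 1; ring
  rw [add_mul, mul_add, mul_add, add_mul, mul_add, mul_add, h1, h2, h3, (th_comm b l l').eq,
    (Fop_comm S c l l').eq]
  abel

theorem Dop_mul_sh (S : Finset (Lat n)) (c : Lat n → k) (b : Fin n → k) (l : Fin n)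
    (v : Lat n) :
    Dop S c b l * sh v = sh v * Dop S c b l + ((v l : k)) • sh v := by
  unfold Dop
  rw [add_mul, th_mul_sh, ← (sh_comm_Fop S c l v).eq, mul_add]
  abel

end Basic

section CharP

variable {n : ℕ} {k : Type*} [Field k] (p : ℕ) [hp : Fact p.Prime] [hk : CharP k p]

theorem charP_End : CharP (Module.End k (Lat n →₀ k)) p := by
  refine Module.charP_end (hchar := hk) ⟨Finsupp.single 0 1, ?_⟩
  rw [eq_bot_iff]
  intro r hr
  rw [Ideal.mem_torsionOf_iff] at hr
  have := congrArg (fun f => f 0) hr
  simpa using this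

theorem intCast_pow_char (z : ℤ) : ((z : k)) ^ p = (z : k) := by
  have h1 : ((z : ZMod p)) ^ p = (z : ZMod p) := ZMod.pow_card _
  have h2 := congrArg (ZMod.castHom (dvd_refl p) k) h1
  rwa [map_pow, map_intCast] at h2

theorem th_pow (b : Fin n → k) (hb : ∀ l, (b l) ^ p = b l) (l : Fin n) :
    (th b l) ^ p = th b l := by
  have h1 : ∀ j : ℕ, ∀ m : Lat n, ((th b l) ^ j) (Finsupp.single m 1) =
      Finsupp.single m (((m l : k) + b l) ^ j) := by
    intro j m
    induction j with
    | zero => simp
    | succ j ih => rw [pow_succ', Module.End.mul_apply, ih, th_single, pow_succ']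
  refine Finsupp.lhom_ext' fun m => LinearMap.ext_ring ?_
  simp only [LinearMap.comp_apply, Finsupp.lsingle_apply]
  rw [h1, th_single, mul_one, add_pow_char, intCast_pow_char, hb]

/-- `D_l^p = D_l + F_l^p`. -/
theorem Dop_pow (S : Finset (Lat n)) (c : Lat n → k) (b : Fin n → k)
    (hb : ∀ l, (b l) ^ p = b l) (l : Fin n) :
    (Dop S c b l) ^ p = Dop S c b l + ∑ v ∈ S, ((c v) ^ p * (v l : k)) • sh (p • v) := by
  classical
  have := charP_End (n := n) (k := k) p
  induction S using Finset.induction_on with
  | empty =>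
    simp only [Dop, Fop, Finset.sum_empty, add_zero]
    exact th_pow p b hb l
  | insert u S hu ih =>
    have e1 : Dop (insert u S) c b l = Dop S c b l + (c u * (u l : k)) • sh u := by
      unfold Dop Fop
      rw [Finset.sum_insert hu]
      abel
    have hc : ∀ z : ℤ, ∀ x : Module.End k (Lat n →₀ k),
        x * ((z : ℤ) : Module.End k (Lat n →₀ k)) = (z : k) • x := by
      intro z x
      rw [← zsmul_one, mul_smul_comm, mul_one]
      ext m
      simp
    have hDh : Dop S c b l * ((c u * (u l : k)) • sh u) =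
        ((c u * (u l : k)) • sh u) * (Dop S c b l + ((u l : ℤ) : Module.End k (Lat n →₀ k))) := by
      rw [mul_add, hc, mul_smul_comm, Dop_mul_sh, smul_add, smul_mul_assoc, smul_comm]
    have hj := jacobson (R := Module.End k (Lat n →₀ k)) p _ _ (u l) hDh
    rw [e1, hj, ih, Finset.sum_insert hu]
    have e2 : ((c u * (u l : k)) • sh u) ^ p =
        ((c u) ^ p * (u l : k)) • (sh (p • u) : Module.End k (Lat n →₀ k)) := by
      rw [smul_pow, mul_pow, intCast_pow_char, sh_pow]
    have e3 : ((u l : ℤ) : Module.End k (Lat n →₀ k)) ^ (p-1) * ((c u * (u l : k)) • sh u) =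
        (c u * (u l : k)) • sh u := by
      have e4 : ((u l : ℤ) : Module.End k (Lat n →₀ k)) ^ (p-1) *
          ((c u * (u l : k)) • sh u) = ((u l : k) ^ (p-1)) • ((c u * (u l : k)) • sh u) := by
        have hc' : ∀ x : Module.End k (Lat n →₀ k),
            ((u l : ℤ) : Module.End k (Lat n →₀ k)) * x = (u l : k) • x := by
          intro x
          rw [← zsmul_one, smul_mul_assoc, one_mul]
          ext m
          simp
        have h8 : ∀ j : ℕ, (((u l : ℤ) : Module.End k (Lat n →₀ k)) ^ j) *
            ((c u * (u l : k)) • sh u) =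
            ((u l : k) ^ j) • ((c u * (u l : k)) • sh u) := by
          intro j
          induction j with
          | zero => simp
          | succ j ih2 => rw [pow_succ', mul_assoc, ih2, hc', smul_smul, pow_succ']
        rw [h8]
      rw [e4, smul_smul]
      congr 1
      have h5 := intCast_pow_char (k := k) p (u l)
      have h6 : (u l : k) ^ p = (u l : k) ^ (p-1) * (u l : k) := by
        rw [← pow_succ, Nat.sub_add_cancel hp.out.one_le]
      calc (u l : k) ^ (p-1) * (c u * (u l : k)) = c u * ((u l : k) ^ (p-1) * (u l : k)) := by ring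
        _ = c u * (u l : k) := by rw [← h6, h5]
    rw [e2, e3]
    abel

end CharP

end MP_b07157_agE1
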