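import Mathlib
import Pool.Agent.Lib.MP_b07157_agE1.Ops

/-!
# Supports, degrees, images
-/

namespace MP_b07157_agE1

open Finset

/-- The combinatorial data: exponents `S`, support sets `L0` (for functions) and `L l` (for the
`l`-th component of vector fields), degree `dg`. -/
structure Geo (n : ℕ) where
  S : Finset (Lat n)
  L0 : Set (Lat n)
  L : Fin n → Set (Lat n)
  dg : Lat n →+ ℤ
  N : ℤ
  B : ℤ
  hN : 0 < N
  hS : ∀ v ∈ S, dg v = N
  sub : ∀ l, L0 ⊆ L l
  add0 : ∀ v ∈ S, ∀ m ∈ L0, m + v ∈ L0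
  add : ∀ l, ∀ v ∈ S, ∀ m ∈ L l, m + v ∈ L l
  jump : ∀ l, ∀ m ∈ L l, m ∉ L0 → m l = -1 ∧ ∀ v ∈ S, v l ≠ 0 → m + v ∈ L0
  fin0 : ∀ κ : ℤ, {m | m ∈ L0 ∧ dg m ≤ κ}.Finite
  finL : ∀ l, ∀ κ : ℤ, {m | m ∈ L l ∧ dg m ≤ κ}.Finite
  lb : ∀ m ∈ L0, B ≤ dg m

section Field

variable {n : ℕ} {k : Type*} [Field k]

abbrev Fn (k : Type*) [Field k] (n : ℕ) := Lat n →₀ k

theorem maps_of_single {V : Type*} [AddCommGroup V] [Module k V] (T : Fn k n →ₗ[k] V)
    (s : Set (Lat n)) (W : Submodule k V)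
    (h : ∀ m ∈ s, T (Finsupp.single m 1) ∈ W) (w : Fn k n) (hw : w ∈ Finsupp.supported k k s) :
    T w ∈ W := by
  rw [Finsupp.supported_eq_span_single] at hw
  have : Submodule.span k ((fun i => Finsupp.single i (1:k)) '' s) ≤ W.comap T := by
    rw [Submodule.span_le]
    rintro _ ⟨m, hm, rfl⟩
    exact h m hm
  exact this hw

theorem mem_of_single (s : Set (Lat n)) (W : Submodule k (Fn k n))
    (h : ∀ m ∈ s, (Finsupp.single m 1 : Fn k n) ∈ W) :
    Finsupp.supported k k s ≤ W := by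
  rw [Finsupp.supported_eq_span_single, Submodule.span_le]
  rintro _ ⟨m, hm, rfl⟩
  exact h m hm

theorem single_mem (s : Set (Lat n)) (m : Lat n) (hm : m ∈ s) (r : k) :
    (Finsupp.single m r : Fn k n) ∈ Finsupp.supported k k s :=
  Finsupp.single_mem_supported k r hm

/-- restriction to a set of exponents -/
noncomputable def pd (s : Set (Lat n)) : Fn k n →ₗ[k] Fn k n :=
  Finsupp.linearCombination k (fun m => by
    classical exact if m ∈ s then Finsupp.single m (1:k) else 0)

theorem pd_single_mem (s : Set (Lat n)) (m : Lat n) (hm : m ∈ s) (r : k) :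
    pd s (Finsupp.single m r) = Finsupp.single m r := by
  classical
  simp [pd, Finsupp.linearCombination_single, hm]

theorem pd_single_notMem (s : Set (Lat n)) (m : Lat n) (hm : m ∉ s) (r : k) :
    pd s (Finsupp.single m r) = 0 := by
  classical
  simp [pd, Finsupp.linearCombination_single, hm]

theorem pd_mem (s t : Set (Lat n)) (w : Fn k n) (hw : w ∈ Finsupp.supported k k t) :
    pd s w ∈ Finsupp.supported k k (t ∩ s) := by
  classical
  refine maps_of_single (pd s) t _ ?_ w hw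
  intro m hm
  by_cases h : m ∈ s
  · rw [pd_single_mem s m h]
    exact single_mem _ _ (by exact ⟨hm, h⟩) _
  · rw [pd_single_notMem s m h]
    exact Submodule.zero_mem _

theorem pd_eq_self (s : Set (Lat n)) (w : Fn k n) (hw : w ∈ Finsupp.supported k k s) :
    pd s w = w := by
  have h : w ∈ (LinearMap.ker ((pd s : Fn k n →ₗ[k] Fn k n) - LinearMap.id)) := by
    refine mem_of_single s _ ?_ hw
    intro m hm
    rw [LinearMap.mem_ker, LinearMap.sub_apply, pd_single_mem s m hm]
    simp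
  rw [LinearMap.mem_ker, LinearMap.sub_apply, sub_eq_zero] at h
  simpa using h

theorem pd_th (b : Fin n → k) (l : Fin n) (s : Set (Lat n)) (w : Fn k n) :
    pd s (th b l w) = th b l (pd s w) := by
  have : (pd s : Fn k n →ₗ[k] Fn k n) ∘ₗ th b l = th b l ∘ₗ pd s := by
    refine Finsupp.lhom_ext' fun m => LinearMap.ext_ring ?_
    by_cases h : m ∈ s
    · simp [pd_single_mem s m h]
    · simp [pd_single_notMem s m h]
  exact LinearMap.congr_fun this w

theorem pd_Fop (G : Geo n) (c : Lat n → k) (l : Fin n) (P : ℤ → Prop) (w : Fn k n) :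
    pd {m | P (G.dg m)} (Fop G.S c l w) = Fop G.S c l (pd {m | P (G.dg m + G.N)} w) := by
  have : (pd {m | P (G.dg m)} : Fn k n →ₗ[k] Fn k n) ∘ₗ Fop G.S c l =
      Fop G.S c l ∘ₗ pd {m | P (G.dg m + G.N)} := by
    refine Finsupp.lhom_ext' fun m => LinearMap.ext_ring ?_
    simp only [LinearMap.comp_apply, Finsupp.lsingle_apply]
    rw [Fop_single, map_sum]
    by_cases h : P (G.dg m + G.N)
    · rw [pd_single_mem _ m h, Fop_single]
      refine Finset.sum_congr rfl fun v hv => ?_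
      rw [pd_single_mem]
      change P (G.dg (m + v))
      rw [map_add, G.hS v hv]; exact h
    · rw [pd_single_notMem _ m h, map_zero]
      refine Finset.sum_eq_zero fun v hv => ?_
      rw [pd_single_notMem]
      change ¬ P (G.dg (m + v))
      rw [map_add, G.hS v hv]; exact h
  exact LinearMap.congr_fun this w

/-- total maps -/
noncomputable def TH (b : Fin n → k) : (Fin n → Fn k n) →ₗ[k] Fn k n :=
  ∑ l, (th b l) ∘ₗ LinearMap.proj l

noncomputable def TF (G : Geo n) (c : Lat n → k) : (Fin n → Fn k n) →ₗ[k] Fn k n :=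
  ∑ l, (Fop G.S c l) ∘ₗ LinearMap.proj l

noncomputable def TD (G : Geo n) (c : Lat n → k) (b : Fin n → k) :
    (Fin n → Fn k n) →ₗ[k] Fn k n :=
  ∑ l, (Dop G.S c b l) ∘ₗ LinearMap.proj l

theorem TH_apply (b : Fin n → k) (u : Fin n → Fn k n) : TH b u = ∑ l, th b l (u l) := by
  simp [TH, LinearMap.sum_apply]

theorem TF_apply (G : Geo n) (c : Lat n → k) (u : Fin n → Fn k n) :
    TF G c u = ∑ l, Fop G.S c l (u l) := by
  simp [TF, LinearMap.sum_apply]

theorem TD_apply (G : Geo n) (c : Lat n → k) (b : Fin n → k) (u : Fin n → Fn k n) :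
    TD G c b u = ∑ l, Dop G.S c b l (u l) := by
  simp [TD, LinearMap.sum_apply]

theorem TD_eq (G : Geo n) (c : Lat n → k) (b : Fin n → k) (u : Fin n → Fn k n) :
    TD G c b u = TH b u + TF G c u := by
  rw [TD_apply, TH_apply, TF_apply, ← Finset.sum_add_distrib]
  rfl

/-- vector fields with support conditions -/
noncomputable def UP (G : Geo n) (P : ℤ → Prop) : Submodule k (Fin n → Fn k n) :=
  Submodule.pi Set.univ (fun l => Finsupp.supported k k {m | m ∈ G.L l ∧ P (G.dg m)})

theorem mem_UP (G : Geo n) (P : ℤ → Prop) (u : Fin n → Fn k n) :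
    u ∈ (UP G P : Submodule k (Fin n → Fn k n)) ↔
      ∀ l, u l ∈ Finsupp.supported k k {m | m ∈ G.L l ∧ P (G.dg m)} := by
  simp [UP, Submodule.mem_pi]

/-- functions with support conditions -/
noncomputable def KP (k : Type*) [Field k] (G : Geo n) (P : ℤ → Prop) : Submodule k (Fn k n) :=
  Finsupp.supported k k {m | m ∈ G.L0 ∧ P (G.dg m)}

def Good (G : Geo n) (b : Fin n → k) : Prop :=
  ∀ l, (∃ m ∈ G.L l, m ∉ G.L0) → b l = 1

theorem th_mem (G : Geo n) (b : Fin n → k) (hb : Good G b) (P : ℤ → Prop) (l : Fin n)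
    (w : Fn k n) (hw : w ∈ Finsupp.supported k k {m | m ∈ G.L l ∧ P (G.dg m)}) :
    th b l w ∈ KP k G P := by
  refine maps_of_single (th b l) _ _ ?_ w hw
  rintro m ⟨hm, hP⟩
  rw [th_single, mul_one]
  by_cases h : m ∈ G.L0
  · exact single_mem _ _ (by exact ⟨h, hP⟩) _
  · have h1 := (G.jump l m hm h).1
    have h2 := hb l ⟨m, hm, h⟩
    rw [h1, h2]
    simp

theorem TH_mem (G : Geo n) (b : Fin n → k) (hb : Good G b) (P : ℤ → Prop)
    (u : Fin n → Fn k n) (hu : u ∈ UP G P) : TH b u ∈ KP k G P := by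
  rw [mem_UP] at hu
  rw [TH_apply]
  exact Submodule.sum_mem _ fun l _ => th_mem G b hb P l _ (hu l)

theorem Fop_mem (G : Geo n) (c : Lat n → k) (P : ℤ → Prop) (l : Fin n)
    (w : Fn k n) (hw : w ∈ Finsupp.supported k k {m | m ∈ G.L l ∧ P (G.dg m + G.N)}) :
    Fop G.S c l w ∈ KP k G P := by
  refine maps_of_single (Fop G.S c l) _ _ ?_ w hw
  rintro m ⟨hm, hP⟩
  rw [Fop_single]
  refine Submodule.sum_mem _ fun v hv => ?_
  by_cases hv0 : v l = 0
  · rw [hv0]; simp
  · have h1 : m + v ∈ G.L0 := by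
      by_cases h : m ∈ G.L0
      · exact G.add0 v hv m h
      · exact (G.jump l m hm h).2 v hv hv0
    have h2 : P (G.dg (m + v)) := by
      rw [map_add, G.hS v hv]; exact hP
    exact single_mem _ _ (by exact ⟨h1, h2⟩) _

theorem TF_mem (G : Geo n) (c : Lat n → k) (P : ℤ → Prop)
    (u : Fin n → Fn k n) (hu : u ∈ UP G (fun j => P (j + G.N))) : TF G c u ∈ KP k G P := by
  rw [mem_UP] at hu
  rw [TF_apply]
  exact Submodule.sum_mem _ fun l _ => Fop_mem G c P l _ (hu l)

/-- restriction of vector fields -/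
noncomputable def pdU (s : Set (Lat n)) (u : Fin n → Fn k n) : Fin n → Fn k n :=
  fun l => pd s (u l)

theorem pdU_mem (G : Geo n) (P Q : ℤ → Prop) (u : Fin n → Fn k n) (hu : u ∈ UP G P) :
    pdU {m | Q (G.dg m)} u ∈ UP G (fun j => P j ∧ Q j) := by
  rw [mem_UP] at hu ⊢
  intro l
  have := pd_mem {m | Q (G.dg m)} _ _ (hu l)
  refine Finsupp.supported_mono ?_ this
  rintro m ⟨⟨h1, h2⟩, h3⟩
  exact ⟨h1, h2, h3⟩

theorem pd_TF (G : Geo n) (c : Lat n → k) (P : ℤ → Prop) (u : Fin n → Fn k n) :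
    pd {m | P (G.dg m)} (TF G c u) = TF G c (pdU {m | P (G.dg m + G.N)} u) := by
  rw [TF_apply, TF_apply, map_sum]
  exact Finset.sum_congr rfl fun l _ => pd_Fop G c l P (u l)

theorem UP_mono (G : Geo n) {P Q : ℤ → Prop} (h : ∀ j, P j → Q j) :
    (UP G P : Submodule k (Fin n → Fn k n)) ≤ UP G Q := by
  intro u hu
  rw [mem_UP] at hu ⊢
  intro l
  refine Finsupp.supported_mono ?_ (hu l)
  rintro m ⟨h1, h2⟩
  exact ⟨h1, h _ h2⟩

theorem KP_mono (G : Geo n) {P Q : ℤ → Prop} (h : ∀ j, P j → Q j) :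
    KP k G P ≤ KP k G Q := by
  refine Finsupp.supported_mono ?_
  rintro m ⟨h1, h2⟩
  exact ⟨h1, h _ h2⟩

/-- the finiteness hypothesis: everything of degree `≥ J` is in the image of `F` -/
def HF (G : Geo n) (c : Lat n → k) (J : ℤ) : Prop :=
  ∀ m ∈ G.L0, J ≤ G.dg m → ∃ u ∈ (UP G (fun j => j = G.dg m - G.N) :
    Submodule k (Fin n → Fn k n)), TF G c u = Finsupp.single m 1

/-- `K_0 = Im D + (degree < J')` -/
theorem K0_le (G : Geo n) (c : Lat n → k) (b : Fin n → k) (hb : Good G b) (J J' : ℤ)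
    (hJ : J ≤ J') (hF : HF G c J) :
    KP k G (fun _ => True) ≤ (UP G (fun _ => True)).map (TD G c b) ⊔ KP k G (fun j => j < J') := by
  have key : ∀ j : ℕ, ∀ m ∈ G.L0, G.dg m < J' + j →
      (Finsupp.single m 1 : Fn k n) ∈
        (UP G (fun _ => True)).map (TD G c b) ⊔ KP k G (fun j => j < J') := by
    intro j
    induction j with
    | zero =>
      intro m hm hd
      have hd' : G.dg m < J' := by simpa using hd
      exact Submodule.mem_sup_right (single_mem _ _ (by exact ⟨hm, hd'⟩) _)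
    | succ j ih =>
      intro m hm hd
      by_cases h : G.dg m < J'
      · exact Submodule.mem_sup_right (single_mem _ _ (by exact ⟨hm, h⟩) _)
      obtain ⟨u, hu, hu2⟩ := hF m hm (by omega)
      have e : (Finsupp.single m 1 : Fn k n) = TD G c b u - TH b u := by
        rw [TD_eq, hu2]; abel
      rw [e]
      refine Submodule.sub_mem _ ?_ ?_
      · exact Submodule.mem_sup_left ⟨u, UP_mono G (fun _ _ => trivial) hu, rfl⟩
      · have h1 := TH_mem G b hb _ u hu
        refine mem_of_single _ _ ?_ h1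
        rintro m' ⟨hm', hd'⟩
        have hN := G.hN
        refine ih m' hm' ?_
        push_cast at hd
        omega
  refine mem_of_single _ _ ?_
  rintro m ⟨hm, -⟩
  refine key (G.dg m - J' + 1).toNat m hm ?_
  omega

/-- degree induction: `V_0 ⊆ Im F + Σ` implies `V_0 ⊆ Im D + Σ`. -/
theorem gr_le (G : Geo n) (c : Lat n → k) (b : Fin n → k) (hb : Good G b) (κ : ℤ)
    (Sg : Set (Lat n))
    (h : KP k G (fun j => j ≤ κ + G.N) ≤
      (UP G (fun j => j ≤ κ)).map (TF G c) ⊔ Finsupp.supported k k Sg) :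
    KP k G (fun j => j ≤ κ + G.N) ≤
      (UP G (fun j => j ≤ κ)).map (TD G c b) ⊔ Finsupp.supported k k Sg := by
  have key : ∀ j : ℕ, ∀ m ∈ G.L0, G.dg m < G.B + j → G.dg m ≤ κ + G.N →
      (Finsupp.single m 1 : Fn k n) ∈
        (UP G (fun j => j ≤ κ)).map (TD G c b) ⊔ Finsupp.supported k k Sg := by
    intro j
    induction j with
    | zero =>
      intro m hm hd
      have := G.lb m hm
      exact absurd hd (by push_cast; omega)
    | succ j ih =>
      intro m hm hd hκ
      have h1 : (Finsupp.single m 1 : Fn k n) ∈ KP k G (fun j => j ≤ κ + G.N) :=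
        single_mem _ _ (by exact ⟨hm, hκ⟩) _
      obtain ⟨y, ⟨u, hu, rfl⟩, s, hs, he⟩ := Submodule.mem_sup.1 (h h1)
      have h2 := congrArg (pd {m' | G.dg m' = G.dg m}) he
      rw [map_add, pd_TF G c (fun j => j = G.dg m) u, pd_single_mem] at h2
      swap
      · rfl
      set u' := pdU {m' | G.dg m' + G.N = G.dg m} u with hu'
      have hu1 : u' ∈ UP G (fun j => j ≤ κ ∧ j + G.N = G.dg m) :=
        pdU_mem G _ (fun j => j + G.N = G.dg m) u hu
      have e : (Finsupp.single m 1 : Fn k n) = TD G c b u' +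
          pd {m' | G.dg m' = G.dg m} s - TH b u' := by
        rw [TD_eq, ← h2]; abel
      rw [e]
      refine Submodule.sub_mem _ (Submodule.add_mem _ ?_ ?_) ?_
      · exact Submodule.mem_sup_left ⟨u', UP_mono G (fun _ h => h.1) hu1, rfl⟩
      · refine Submodule.mem_sup_right ?_
        exact Finsupp.supported_mono (fun _ h => h.1) (pd_mem _ _ _ hs)
      · have h3 := TH_mem G b hb _ u' hu1
        refine mem_of_single _ _ ?_ h3
        rintro m' ⟨hm', hd1, hd2⟩
        have hN := G.hN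
        refine ih m' hm' ?_ ?_
        · push_cast at hd
          omega
        · omega
  refine mem_of_single _ _ ?_
  rintro m ⟨hm, hκ⟩
  refine key (G.dg m - G.B + 1).toNat m hm ?_ hκ
  omega

end Field

end MP_b07157_agE1
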