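import Mathlib
import Pool.Agent.Lib.MP_b07157_agE1.Geo

/-!
# The Frobenius map `Φ = ψ ∘ ∏ (1 - D_l^(p-1))` in characteristic `p`
-/

namespace MP_b07157_agE1

open Finset

section RingLemmas

variable {R : Type*} [Ring R]

theorem rl_one_sub_left {a b : R} (h : Commute a b) : Commute (1 - a) b :=
  (Commute.one_left _).sub_left h

theorem rl_one_sub_right {a b : R} (h : Commute a b) : Commute a (1 - b) :=
  (Commute.one_right _).sub_right h

theorem rl_E_mul (p : ℕ) (hp : 1 ≤ p) (D G : R) (h : D ^ p = D + G) :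
    (1 - D ^ (p-1)) * D = - G := by
  have h2 : D ^ p = D ^ (p-1) * D := by rw [← pow_succ, Nat.sub_add_cancel hp]
  rw [sub_mul, one_mul, ← h2, h]
  abel

theorem rl_mul_neg (a b : R) (h : Commute b a) : a * (-b) = -(b * a) := by
  rw [mul_neg, h.eq]

end RingLemmas

section

variable {n : ℕ} {k : Type*} [Field k] (p : ℕ) [hp : Fact p.Prime] [hk : CharP k p]

theorem sh_apply (v : Lat n) (w : Fn k n) (m : Lat n) : (sh v w) m = w (m - v) := by
  have h : Function.Injective (fun m : Lat n => m + v) := fun a b hab => add_right_cancel hab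
  have := Finsupp.mapDomain_apply h w (m - v)
  simp only [sub_add_cancel] at this
  rw [sh, Finsupp.lmapDomain_apply, this]

omit hk in
theorem emb_inj (β : Lat n) : Function.Injective (fun m : Lat n => β + p • m) := by
  intro a b hab
  have h : p • a = p • b := add_left_cancel hab
  funext i
  have h2 := congrFun h i
  simp only [Pi.smul_apply, nsmul_eq_mul] at h2
  have hp0 : (p : ℤ) ≠ 0 := by exact_mod_cast hp.out.ne_zero
  exact mul_left_cancel₀ hp0 h2

/-- `(ψ w)(m) = w (β + p m)` -/
noncomputable def psi (β : Lat n) : Fn k n →ₗ[k] Fn k n :=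
  Finsupp.lcomapDomain (fun m : Lat n => β + p • m) (emb_inj p β)

omit hk in
@[simp] theorem psi_apply (β : Lat n) (w : Fn k n) (m : Lat n) :
    psi p β w m = w (β + p • m) := rfl

omit hk in
theorem psi_single (β m : Lat n) (r : k) :
    psi p β (Finsupp.single (β + p • m) r) = Finsupp.single m r := by
  classical
  ext m'
  rw [psi_apply, Finsupp.single_apply, Finsupp.single_apply]
  by_cases h : m = m'
  · subst h; simp
  · rw [if_neg h, if_neg]
    intro h2
    exact h (emb_inj p β h2)

omit hk in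
theorem psi_mem (β : Lat n) (s : Set (Lat n)) (w : Fn k n)
    (hw : w ∈ Finsupp.supported k k s) :
    psi p β w ∈ Finsupp.supported k k {m | β + p • m ∈ s} := by
  rw [Finsupp.mem_supported'] at hw ⊢
  intro m hm
  rw [psi_apply]
  exact hw _ hm

omit hk in
theorem psi_sh (β v : Lat n) (w : Fn k n) : psi p β (sh (p • v) w) = sh v (psi p β w) := by
  ext m
  rw [psi_apply, sh_apply, sh_apply, psi_apply, smul_sub, add_sub_assoc]

/-- `G_l = F_l^p` as an operator -/
noncomputable def Gop (S : Finset (Lat n)) (c : Lat n → k) (l : Fin n) :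
    Module.End k (Lat n →₀ k) := ∑ v ∈ S, ((c v) ^ p * (v l : k)) • sh (p • v)

theorem Gop_comm_Dop (S : Finset (Lat n)) (c : Lat n → k) (b : Fin n → k) (l l' : Fin n) :
    Commute (Gop p S c l) (Dop S c b l') := by
  unfold Gop
  refine Commute.sum_left _ _ _ fun v _ => Commute.smul_left ?_ _
  unfold Commute SemiconjBy
  rw [Dop_mul_sh]
  have : (((p • v) l' : ℤ) : k) = 0 := by
    simp
  rw [this, zero_smul, add_zero]

omit hk in
theorem psi_Gop (S : Finset (Lat n)) (c : Lat n → k) (l : Fin n) (β : Lat n) (w : Fn k n) :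
    psi p β (Gop p S c l w) = Fop S (fun v => (c v) ^ p) l (psi p β w) := by
  unfold Gop Fop
  rw [LinearMap.sum_apply, map_sum, LinearMap.sum_apply]
  refine Finset.sum_congr rfl fun v _ => ?_
  rw [LinearMap.smul_apply, map_smul, psi_sh, LinearMap.smul_apply]

/-- `E_l = 1 - D_l^(p-1)` -/
noncomputable def Eop (S : Finset (Lat n)) (c : Lat n → k) (b : Fin n → k) (l : Fin n) :
    Module.End k (Lat n →₀ k) := 1 - (Dop S c b l) ^ (p-1)

omit hp hk in
theorem Eop_comm_Dop (S : Finset (Lat n)) (c : Lat n → k) (b : Fin n → k) (l l' : Fin n) :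
    Commute (Eop p S c b l) (Dop S c b l') := by
  exact rl_one_sub_left (R := Module.End k (Lat n →₀ k)) ((Dop_comm S c b l l').pow_left _)

omit hp hk in
theorem Eop_comm (S : Finset (Lat n)) (c : Lat n → k) (b : Fin n → k) (l l' : Fin n) :
    Commute (Eop p S c b l) (Eop p S c b l') := by
  have h := Eop_comm_Dop p S c b l l'
  exact rl_one_sub_right (R := Module.End k (Lat n →₀ k)) (h.pow_right _)

theorem Gop_comm_Eop (S : Finset (Lat n)) (c : Lat n → k) (b : Fin n → k) (l l' : Fin n) :
    Commute (Gop p S c l) (Eop p S c b l') := by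
  exact rl_one_sub_right (R := Module.End k (Lat n →₀ k)) ((Gop_comm_Dop p S c b l l').pow_right _)

noncomputable def PP (S : Finset (Lat n)) (c : Lat n → k) (b : Fin n → k)
    (s : Finset (Fin n)) : Module.End k (Lat n →₀ k) :=
  s.noncommProd (Eop p S c b) (fun l _ l' _ _ => Eop_comm p S c b l l')

theorem Eop_mul_Dop (S : Finset (Lat n)) (c : Lat n → k) (b : Fin n → k)
    (hb : ∀ l, (b l) ^ p = b l) (l : Fin n) :
    Eop p S c b l * Dop S c b l = - Gop p S c l := by
  exact rl_E_mul (R := Module.End k (Lat n →₀ k)) p hp.out.one_le _ _ (Dop_pow p S c b hb l)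

theorem PP_mul_Dop (S : Finset (Lat n)) (c : Lat n → k) (b : Fin n → k)
    (hb : ∀ l, (b l) ^ p = b l) (l : Fin n) :
    PP p S c b Finset.univ * Dop S c b l =
      - (Gop p S c l * PP p S c b (Finset.univ.erase l)) := by
  classical
  have h1 : PP p S c b Finset.univ = PP p S c b (Finset.univ.erase l) * Eop p S c b l := by
    unfold PP
    exact (Finset.noncommProd_erase_mul _ (Finset.mem_univ l) _ _).symm
  have h2 : Commute (Gop p S c l) (PP p S c b (Finset.univ.erase l)) := by
    unfold PP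
    exact Finset.noncommProd_commute _ _ _ _ fun l' _ => Gop_comm_Eop p S c b l l'
  rw [h1, mul_assoc, Eop_mul_Dop p S c b hb l]
  exact rl_mul_neg (R := Module.End k (Lat n →₀ k)) _ _ h2

/-- endomorphisms preserving a subspace -/
def pres (W : Submodule k (Fn k n)) : Submonoid (Module.End k (Lat n →₀ k)) where
  carrier := {T | ∀ w ∈ W, T w ∈ W}
  one_mem' := fun w hw => hw
  mul_mem' := fun {a b} ha hb w hw => ha _ (hb w hw)

omit hp hk in
theorem Eop_pres (S : Finset (Lat n)) (c : Lat n → k) (b : Fin n → k) (l : Fin n)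
    (W : Submodule k (Fn k n)) (h : Dop S c b l ∈ pres W) : Eop p S c b l ∈ pres W := by
  intro w hw
  have h2 := Submonoid.pow_mem _ h (p-1)
  unfold Eop
  rw [LinearMap.sub_apply]
  exact W.sub_mem hw (h2 w hw)

omit hp hk in
theorem PP_pres (S : Finset (Lat n)) (c : Lat n → k) (b : Fin n → k) (s : Finset (Fin n))
    (W : Submodule k (Fn k n)) (h : ∀ l, Dop S c b l ∈ pres W) :
    PP p S c b s ∈ pres W := by
  unfold PP
  exact Submonoid.noncommProd_mem _ _ _ _ fun l _ => Eop_pres p S c b l W (h l)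

omit hp hk in
theorem Dop_pres_set (S : Finset (Lat n)) (c : Lat n → k) (b : Fin n → k) (l : Fin n)
    (t : Set (Lat n)) (ht : ∀ v ∈ S, ∀ m ∈ t, m + v ∈ t) :
    Dop S c b l ∈ pres (Finsupp.supported k k t : Submodule k (Fn k n)) := by
  intro w hw
  refine maps_of_single (Dop S c b l) t _ ?_ w hw
  intro m hm
  unfold Dop
  rw [LinearMap.add_apply, th_single, Fop_single]
  refine Submodule.add_mem _ (single_mem _ _ hm _) (Submodule.sum_mem _ fun v hv => ?_)
  exact single_mem _ _ (ht v hv m hm) _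

/-- The Frobenius map. -/
noncomputable def Phi (S : Finset (Lat n)) (c : Lat n → k) (b : Fin n → k) (β : Lat n) :
    Fn k n →ₗ[k] Fn k n := psi p β ∘ₗ (PP p S c b Finset.univ)

/-- compatibility of the supports with `m ↦ β + p m` -/
structure Scal (G : Geo n) (β : Lat n) : Prop where
  h0 : ∀ m, β + p • m ∈ G.L0 ↔ m ∈ G.L0
  h : ∀ l m, β + p • m ∈ G.L l ↔ m ∈ G.L l

theorem Phi_TD (G : Geo n) (c : Lat n → k) (b : Fin n → k) (hb : ∀ l, (b l) ^ p = b l)
    (β : Lat n) (hβ : Scal p G β) (u : Fin n → Fn k n) (hu : u ∈ UP G (fun _ => True)) :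
    Phi p G.S c b β (TD G c b u) ∈ (UP G (fun _ => True)).map (TF G (fun v => (c v) ^ p)) := by
  classical
  rw [mem_UP] at hu
  refine ⟨fun l => - psi p β (PP p G.S c b (Finset.univ.erase l) (u l)), ?_, ?_⟩
  · rw [SetLike.mem_coe, mem_UP]
    intro l
    refine Submodule.neg_mem _ ?_
    have h1 : PP p G.S c b (Finset.univ.erase l) (u l) ∈
        Finsupp.supported k k {m | m ∈ G.L l ∧ True} := by
      refine PP_pres p G.S c b _ _ (fun l' => Dop_pres_set G.S c b l' _ ?_) _ (hu l)
      rintro v hv m ⟨hm, -⟩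
      exact ⟨G.add l v hv m hm, trivial⟩
    refine Finsupp.supported_mono ?_ (psi_mem p β _ _ h1)
    rintro m ⟨hm, -⟩
    exact ⟨(hβ.h l m).1 hm, trivial⟩
  · rw [TF_apply, TD_apply, map_sum]
    refine Finset.sum_congr rfl fun l _ => ?_
    have h1 := LinearMap.congr_fun (PP_mul_Dop p G.S c b hb l) (u l)
    rw [Module.End.mul_apply, LinearMap.neg_apply, Module.End.mul_apply] at h1
    rw [Phi, LinearMap.comp_apply, h1, map_neg, map_neg, psi_Gop]

/-- leading term -/
theorem PP_lead (G : Geo n) (c : Lat n → k) (b : Fin n → k) (m : Lat n) (hm : m ∈ G.L0)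
    (hmb : ∀ l, (m l : k) + b l = 0) (s : Finset (Fin n)) :
    PP p G.S c b s (Finsupp.single m 1) - Finsupp.single m 1 ∈
      KP k G (fun j => G.dg m < j) := by
  set W : Submodule k (Fn k n) := KP k G (fun j => G.dg m < j) with hW
  have hN := G.hN
  have hDW : ∀ l, Dop G.S c b l ∈ pres W := by
    intro l
    refine Dop_pres_set G.S c b l _ ?_
    rintro v hv m' ⟨hm', hd⟩
    refine ⟨G.add0 v hv m' hm', ?_⟩
    change G.dg m < G.dg (m' + v)
    rw [map_add, G.hS v hv]
    have : G.dg m < G.dg m' := hd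
    omega
  have hD1 : ∀ l, Dop G.S c b l (Finsupp.single m 1) ∈ W := by
    intro l
    unfold Dop
    rw [LinearMap.add_apply, th_single, hmb, zero_mul, Finsupp.single_zero, zero_add, Fop_single]
    refine Submodule.sum_mem _ fun v hv => ?_
    have h2 : G.dg m < G.dg (m + v) := by
      rw [map_add, G.hS v hv]; omega
    exact single_mem _ _ (by exact ⟨G.add0 v hv m hm, h2⟩) _
  let Q : Submonoid (Module.End k (Lat n →₀ k)) :=
    { carrier := {T | T (Finsupp.single m 1) - Finsupp.single m 1 ∈ W ∧ ∀ w ∈ W, T w ∈ W}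
      one_mem' := ⟨by simp, fun w hw => hw⟩
      mul_mem' := by
        rintro a b' ⟨ha1, ha2⟩ ⟨hb1, hb2⟩
        refine ⟨?_, fun w hw => ha2 _ (hb2 w hw)⟩
        have h1 := ha2 _ hb1
        rw [map_sub] at h1
        have h2 := W.add_mem h1 ha1
        rw [Module.End.mul_apply]
        simpa using h2 }
  have hQ : PP p G.S c b s ∈ Q := by
    unfold PP
    refine Submonoid.noncommProd_mem _ _ _ _ fun l _ => ?_
    refine ⟨?_, Eop_pres p G.S c b l W (hDW l)⟩
    unfold Eop
    rw [LinearMap.sub_apply, Module.End.one_apply]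
    have hp2 : 2 ≤ p := hp.out.two_le
    obtain ⟨q, hq⟩ : ∃ q, p - 1 = q + 1 := ⟨p - 2, by omega⟩
    rw [hq, pow_succ, Module.End.mul_apply]
    have h3 := Submonoid.pow_mem _ (hDW l) q _ (hD1 l)
    have h4 : (Finsupp.single m 1 : Fn k n) -
        ((Dop G.S c b l) ^ q) ((Dop G.S c b l) (Finsupp.single m 1)) - Finsupp.single m 1 =
        - ((Dop G.S c b l) ^ q) ((Dop G.S c b l) (Finsupp.single m 1)) := by abel
    rw [h4]
    exact W.neg_mem h3
  exact hQ.1

theorem Phi_K0 (G : Geo n) (c : Lat n → k) (b : Fin n → k) (β : Lat n) (hβ : Scal p G β)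
    (w : Fn k n) (hw : w ∈ KP k G (fun _ => True)) :
    Phi p G.S c b β w ∈ KP k G (fun _ => True) := by
  rw [Phi, LinearMap.comp_apply]
  have h1 : PP p G.S c b Finset.univ w ∈ KP k G (fun _ => True) := by
    refine PP_pres p G.S c b _ _ (fun l' => Dop_pres_set G.S c b l' _ ?_) _ hw
    rintro v hv m ⟨hm, -⟩
    exact ⟨G.add0 v hv m hm, trivial⟩
  refine Finsupp.supported_mono ?_ (psi_mem p β _ _ h1)
  rintro m ⟨hm, -⟩
  exact ⟨(hβ.h0 m).1 hm, trivial⟩

/-- `Φ` is surjective modulo the image of `F^σ`. -/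
theorem Phi_surj (G : Geo n) (c : Lat n → k) (b : Fin n → k) (β : Lat n) (hβ : Scal p G β)
    (hbβ : ∀ l, (β l : k) + b l = 0) (J : ℤ) (hF : HF G (fun v => (c v) ^ p) J) :
    KP k G (fun _ => True) ≤ (KP k G (fun _ => True)).map (Phi p G.S c b β) ⊔
      (UP G (fun _ => True)).map (TF G (fun v => (c v) ^ p)) := by
  have key : ∀ j : ℕ, ∀ m ∈ G.L0, J - j ≤ G.dg m → (Finsupp.single m 1 : Fn k n) ∈
      (KP k G (fun _ => True)).map (Phi p G.S c b β) ⊔
      (UP G (fun _ => True)).map (TF G (fun v => (c v) ^ p)) := by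
    intro j
    induction j with
    | zero =>
      intro m hm hd
      obtain ⟨u, hu, hu2⟩ := hF m hm (by simpa using hd)
      exact Submodule.mem_sup_right ⟨u, UP_mono G (fun _ _ => trivial) hu, hu2⟩
    | succ j ih =>
      intro m hm hd
      have hmβ : β + p • m ∈ G.L0 := (hβ.h0 m).2 hm
      have h0 : ∀ l, (((β + p • m) l : ℤ) : k) + b l = 0 := by
        intro l
        have := hbβ l
        simpa using this
      have h1 := PP_lead p G c b (β + p • m) hmβ h0 Finset.univ
      set w := PP p G.S c b Finset.univ (Finsupp.single (β + p • m) 1) -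
        Finsupp.single (β + p • m) 1 with hw
      have e : (Finsupp.single m 1 : Fn k n) =
          Phi p G.S c b β (Finsupp.single (β + p • m) 1) - psi p β w := by
        rw [hw, Phi, LinearMap.comp_apply, map_sub, psi_single]
        abel
      rw [e]
      refine Submodule.sub_mem _ ?_ ?_
      · exact Submodule.mem_sup_left ⟨_, single_mem _ _ (by exact ⟨hmβ, trivial⟩) _, rfl⟩
      · have h2 := psi_mem p β _ _ h1
        refine mem_of_single _ _ ?_ h2
        rintro m' ⟨hm', hd'⟩
        refine ih m' ((hβ.h0 m').1 hm') ?_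
        have hd2 : G.dg (β + p • m) < G.dg (β + p • m') := hd'
        rw [map_add, map_add, map_nsmul, map_nsmul] at hd2
        have hp0 : 0 < (p : ℤ) := by exact_mod_cast hp.out.pos
        have h3 : G.dg m < G.dg m' := by
          simp only [nsmul_eq_mul] at hd2
          have h4 : (p : ℤ) * G.dg m < (p:ℤ) * G.dg m' := by linarith
          exact lt_of_mul_lt_mul_left h4 hp0.le
        push_cast at hd
        omega
  refine mem_of_single _ _ ?_
  rintro m ⟨hm, -⟩
  refine key (J - G.dg m).toNat m hm ?_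
  omega

end

end MP_b07157_agE1
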