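import Mathlib
import Pool.Agent.Lib.MP_b07157_agE1.Frob

/-!
# Rank comparison
-/

namespace MP_b07157_agE1

open Finset Module

section

variable {n : ℕ} {k : Type*} [Field k]

theorem finite_KP (G : Geo n) (κ : ℤ) :
    FiniteDimensional k (KP k G (fun j => j ≤ κ)) := by
  have hf := G.fin0 κ
  have : Finite ({m | m ∈ G.L0 ∧ (fun j => j ≤ κ) (G.dg m)} : Set (Lat n)) := hf
  exact Module.Finite.equiv (Finsupp.supportedEquivFinsupp
    ({m | m ∈ G.L0 ∧ (fun j => j ≤ κ) (G.dg m)} : Set (Lat n))).symm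

theorem TD_mem (G : Geo n) (c : Lat n → k) (b : Fin n → k) (hb : Good G b) (κ : ℤ)
    (u : Fin n → Fn k n) (hu : u ∈ UP G (fun j => j ≤ κ)) :
    TD G c b u ∈ KP k G (fun j => j ≤ κ + G.N) := by
  have hN := G.hN
  rw [TD_eq]
  refine Submodule.add_mem _ ?_ ?_
  · exact KP_mono G (fun j hj => by omega) (TH_mem G b hb _ u hu)
  · refine TF_mem G c (fun j => j ≤ κ + G.N) u ?_
    exact UP_mono G (fun j hj => by omega) hu

theorem TF_mem' (G : Geo n) (c : Lat n → k) (κ : ℤ)
    (u : Fin n → Fn k n) (hu : u ∈ UP G (fun j => j ≤ κ)) :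
    TF G c u ∈ KP k G (fun j => j ≤ κ + G.N) := by
  refine TF_mem G c (fun j => j ≤ κ + G.N) u ?_
  exact UP_mono G (fun j hj => by omega) hu

/-- image of `D` on degree `≤ κ` -/
noncomputable def imD (G : Geo n) (c : Lat n → k) (b : Fin n → k) (κ : ℤ) :
    Submodule k (Fn k n) := (UP G (fun j => j ≤ κ)).map (TD G c b)

/-- image of `F` on degree `≤ κ` -/
noncomputable def imF (G : Geo n) (c : Lat n → k) (κ : ℤ) :
    Submodule k (Fn k n) := (UP G (fun j => j ≤ κ)).map (TF G c)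

theorem imD_le (G : Geo n) (c : Lat n → k) (b : Fin n → k) (hb : Good G b) (κ : ℤ) :
    imD G c b κ ≤ KP k G (fun j => j ≤ κ + G.N) := by
  rintro _ ⟨u, hu, rfl⟩
  exact TD_mem G c b hb κ u hu

theorem imF_le (G : Geo n) (c : Lat n → k) (κ : ℤ) :
    imF G c κ ≤ KP k G (fun j => j ≤ κ + G.N) := by
  rintro _ ⟨u, hu, rfl⟩
  exact TF_mem' G c κ u hu

/-- A monomial complement of `Im F`, containing a prescribed monomial. -/
theorem exists_compl (G : Geo n) (c : Lat n → k) (κ : ℤ) (s : Set (Lat n))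
    (hs1 : s ⊆ {m | m ∈ G.L0 ∧ G.dg m ≤ κ + G.N})
    (hs2 : LinearIndepOn k (fun m => (imF G c κ).mkQ (Finsupp.single m (1:k))) s) :
    ∃ Sg : Set (Lat n), s ⊆ Sg ∧ Sg ⊆ {m | m ∈ G.L0 ∧ G.dg m ≤ κ + G.N} ∧
      KP k G (fun j => j ≤ κ + G.N) ≤ imF G c κ ⊔ Finsupp.supported k k Sg ∧
      imF G c κ ⊓ Finsupp.supported k k Sg = ⊥ := by
  obtain ⟨Sg, h1, h2, h3, h4⟩ := exists_linearIndepOn_extension hs2 hs1
  refine ⟨Sg, h2, h1, ?_, ?_⟩
  · refine mem_of_single _ _ ?_
    intro m hm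
    have h5 := h3 ⟨m, hm, rfl⟩
    rw [SetLike.mem_coe, Finsupp.mem_span_image_iff_linearCombination] at h5
    obtain ⟨l, hl, hl2⟩ := h5
    have h6 : Finsupp.linearCombination k
        (fun m => (imF G c κ).mkQ (Finsupp.single m (1:k))) l = (imF G c κ).mkQ l := by
      have : Finsupp.linearCombination k
          (fun m => (imF G c κ).mkQ (Finsupp.single m (1:k))) = (imF G c κ).mkQ := by
        refine Finsupp.lhom_ext' fun m => LinearMap.ext_ring ?_
        simp
      rw [this]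
    rw [h6] at hl2
    have h7 : l - Finsupp.single m 1 ∈ imF G c κ := (Submodule.Quotient.eq _).1 hl2
    have h8 : (Finsupp.single m 1 : Fn k n) = - (l - Finsupp.single m 1) + l := by abel
    rw [h8]
    exact Submodule.add_mem _ (Submodule.mem_sup_left (Submodule.neg_mem _ h7))
      (Submodule.mem_sup_right hl)
  · rw [eq_bot_iff]
    rintro w ⟨hw1, hw2⟩
    rw [linearIndepOn_iff] at h4
    refine h4 w hw2 ?_
    have : Finsupp.linearCombination k
        (fun m => (imF G c κ).mkQ (Finsupp.single m (1:k))) = (imF G c κ).mkQ := by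
      refine Finsupp.lhom_ext' fun m => LinearMap.ext_ring ?_
      simp
    rw [this]
    exact (Submodule.Quotient.mk_eq_zero _).2 hw1

theorem rank_le_aux (G : Geo n) (c : Lat n → k) (b : Fin n → k) (hb : Good G b) (κ : ℤ)
    (s : Set (Lat n)) (hs1 : s ⊆ {m | m ∈ G.L0 ∧ G.dg m ≤ κ + G.N})
    (hs2 : LinearIndepOn k (fun m => (imF G c κ).mkQ (Finsupp.single m (1:k))) s) :
    ∃ Sg : Set (Lat n), s ⊆ Sg ∧
      finrank k (imF G c κ) + finrank k ↥(imD G c b κ ⊓ Finsupp.supported k k Sg) ≤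
        finrank k (imD G c b κ) := by
  obtain ⟨Sg, h1, h2, h3, h4⟩ := exists_compl G c κ s hs1 hs2
  refine ⟨Sg, h1, ?_⟩
  have hfd := finite_KP (k := k) G (κ + G.N)
  have hD := imD_le G c b hb κ
  have hF := imF_le G c κ
  have hS : (Finsupp.supported k k Sg : Submodule k (Fn k n)) ≤
      KP k G (fun j => j ≤ κ + G.N) := Finsupp.supported_mono h2
  have fD : FiniteDimensional k (imD G c b κ) := Submodule.finiteDimensional_of_le hD
  have fF : FiniteDimensional k (imF G c κ) := Submodule.finiteDimensional_of_le hF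
  have fS : FiniteDimensional k (Finsupp.supported k k Sg : Submodule k (Fn k n)) :=
    Submodule.finiteDimensional_of_le hS
  have e1 : KP k G (fun j => j ≤ κ + G.N) = imF G c κ ⊔ Finsupp.supported k k Sg :=
    le_antisymm h3 (sup_le hF hS)
  have e2 : KP k G (fun j => j ≤ κ + G.N) = imD G c b κ ⊔ Finsupp.supported k k Sg :=
    le_antisymm (gr_le G c b hb κ Sg h3) (sup_le hD hS)
  have d1 := Submodule.finrank_sup_add_finrank_inf_eq (imF G c κ)
    (Finsupp.supported k k Sg : Submodule k (Fn k n))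
  have d2 := Submodule.finrank_sup_add_finrank_inf_eq (imD G c b κ)
    (Finsupp.supported k k Sg : Submodule k (Fn k n))
  rw [h4, finrank_bot, ← e1] at d1
  rw [← e2] at d2
  omega

/-- `rank F ≤ rank D` in every window. -/
theorem rankF_le_rankD (G : Geo n) (c : Lat n → k) (b : Fin n → k) (hb : Good G b) (κ : ℤ) :
    finrank k (imF G c κ) ≤ finrank k (imD G c b κ) := by
  obtain ⟨Sg, -, h⟩ := rank_le_aux G c b hb κ ∅ (Set.empty_subset _) (linearIndepOn_empty _ _)
  omega

/-- If a monomial is in `Im D` but not in `Im F` then `rank F < rank D`. -/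
theorem rankF_lt_rankD (G : Geo n) (c : Lat n → k) (b : Fin n → k) (hb : Good G b) (κ : ℤ)
    (m : Lat n) (hm : m ∈ G.L0) (hd : G.dg m ≤ κ + G.N)
    (h1 : (Finsupp.single m 1 : Fn k n) ∈ imD G c b κ)
    (h2 : (Finsupp.single m 1 : Fn k n) ∉ imF G c κ) :
    finrank k (imF G c κ) < finrank k (imD G c b κ) := by
  have h3 : LinearIndepOn k (fun m => (imF G c κ).mkQ (Finsupp.single m (1:k))) {m} := by
    rw [linearIndepOn_singleton_iff]
    intro h
    exact h2 ((Submodule.Quotient.mk_eq_zero _).1 h)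
  obtain ⟨Sg, hSg, h⟩ := rank_le_aux G c b hb κ {m} (by
    rintro _ rfl; exact ⟨hm, hd⟩) h3
  have fD : FiniteDimensional k (imD G c b κ) := by
    have hfd := finite_KP (k := k) G (κ + G.N)
    exact Submodule.finiteDimensional_of_le (imD_le G c b hb κ)
  have h4 : 0 < finrank k ↥(imD G c b κ ⊓ Finsupp.supported k k Sg) := by
    have fI : FiniteDimensional k ↥(imD G c b κ ⊓ Finsupp.supported k k Sg) :=
      Submodule.finiteDimensional_of_le inf_le_left
    have hne : (imD G c b κ ⊓ Finsupp.supported k k Sg) ≠ ⊥ := by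
      intro h5
      have h6 : (Finsupp.single m 1 : Fn k n) ∈ (imD G c b κ ⊓ Finsupp.supported k k Sg) :=
        ⟨h1, single_mem _ _ (hSg rfl) _⟩
      rw [h5, Submodule.mem_bot] at h6
      have h7 := congrArg (fun f : Fn k n => f m) h6
      simp at h7
    exact Nat.pos_of_ne_zero fun h0 => hne (Submodule.finrank_eq_zero.1 h0)
  omega

end

section CharP

variable {n : ℕ} {k : Type*} [Field k] (p : ℕ) [hp : Fact p.Prime] [hk : CharP k p]

/-- `rank D ≤ rank F^σ` in characteristic `p`. -/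
theorem rankD_le_rankFp (G : Geo n) (c : Lat n → k) (b : Fin n → k) (hg : Good G b)
    (hb : ∀ l, (b l) ^ p = b l) (β : Lat n) (hβ : Scal p G β)
    (hbβ : ∀ l, (β l : k) + b l = 0) (J κ : ℤ) (hJ : J ≤ κ + G.N)
    (hF : HF G c J) (hFp : HF G (fun v => (c v) ^ p) J) :
    finrank k (imD G c b κ) ≤ finrank k (imF G (fun v => (c v) ^ p) κ) := by
  have hN := G.hN
  set K0 : Submodule k (Fn k n) := KP k G (fun _ => True) with hK0
  set V0 : Submodule k (Fn k n) := KP k G (fun j => j ≤ κ + G.N) with hV0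
  set I : Submodule k (Fn k n) := (UP G (fun _ => True)).map (TF G (fun v => (c v) ^ p)) with hI
  have hfd : FiniteDimensional k V0 := finite_KP (k := k) G (κ + G.N)
  let g1 : V0 →ₗ[k] (Fn k n ⧸ I) := (I.mkQ ∘ₗ Phi p G.S c b β) ∘ₗ V0.subtype
  let g2 : V0 →ₗ[k] (Fn k n ⧸ I) := I.mkQ ∘ₗ V0.subtype
  set Q := K0.map I.mkQ with hQ
  have hVK : V0 ≤ K0 := KP_mono G (fun _ _ => trivial)
  -- range of g1
  have r1 : Q ≤ LinearMap.range g1 := by
    rintro _ ⟨z, hz, rfl⟩
    obtain ⟨_, ⟨z', hz', rfl⟩, i, hi, rfl⟩ :=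
      Submodule.mem_sup.1 (Phi_surj p G c b β hβ hbβ J hFp hz)
    obtain ⟨_, ⟨u, hu, rfl⟩, v, hv, rfl⟩ :=
      Submodule.mem_sup.1 (K0_le G c b hg J (κ + G.N + 1) (by omega) hF hz')
    have hv' : v ∈ V0 := KP_mono G (fun j hj => by omega) hv
    refine ⟨⟨v, hv'⟩, ?_⟩
    have h1 : I.mkQ (Phi p G.S c b β (TD G c b u)) = 0 :=
      (Submodule.Quotient.mk_eq_zero _).2 (Phi_TD p G c b hb β hβ u hu)
    have h2 : I.mkQ i = 0 := (Submodule.Quotient.mk_eq_zero _).2 hi
    change I.mkQ (Phi p G.S c b β v) = I.mkQ (Phi p G.S c b β (TD G c b u + v) + i)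
    rw [map_add, map_add, map_add, h1, h2, zero_add, add_zero]
  have r2 : LinearMap.range g2 ≤ Q := by
    rintro _ ⟨v, rfl⟩
    exact ⟨v, hVK v.2, rfl⟩
  have k1 : imD G c b κ ≤ (LinearMap.ker g1).map V0.subtype := by
    rintro _ ⟨u, hu, rfl⟩
    refine ⟨⟨TD G c b u, TD_mem G c b hg κ u hu⟩, ?_, rfl⟩
    rw [SetLike.mem_coe, LinearMap.mem_ker]
    exact (Submodule.Quotient.mk_eq_zero _).2
      (Phi_TD p G c b hb β hβ u (UP_mono G (fun _ _ => trivial) hu))
  have k2 : (LinearMap.ker g2).map V0.subtype ≤ imF G (fun v => (c v) ^ p) κ := by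
    rintro _ ⟨v, hv, rfl⟩
    rw [SetLike.mem_coe, LinearMap.mem_ker] at hv
    obtain ⟨u, hu, hu2⟩ := (Submodule.Quotient.mk_eq_zero I).1 hv
    have h1 : pd {m | G.dg m ≤ κ + G.N} (v : Fn k n) = v := by
      refine pd_eq_self _ _ (Finsupp.supported_mono ?_ v.2)
      rintro m ⟨-, hm⟩
      exact hm
    have h2 := pd_TF G (fun v => (c v) ^ p) (fun j => j ≤ κ + G.N) u
    have hu2' : TF G (fun v => (c v) ^ p) u = (v : Fn k n) := hu2
    rw [hu2', h1] at h2
    refine ⟨_, ?_, h2.symm⟩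
    refine UP_mono G ?_ (pdU_mem G _ (fun j => j + G.N ≤ κ + G.N) u hu)
    rintro j ⟨-, hj⟩
    omega
  have fQ1 : FiniteDimensional k (LinearMap.range g1) := inferInstance
  have fQ : FiniteDimensional k Q := Submodule.finiteDimensional_of_le r1
  have fK1 : finrank k ((LinearMap.ker g1).map V0.subtype) = finrank k (LinearMap.ker g1) :=
    LinearEquiv.finrank_eq (Submodule.equivMapOfInjective _ V0.injective_subtype _).symm
  have fK2 : finrank k ((LinearMap.ker g2).map V0.subtype) = finrank k (LinearMap.ker g2) :=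
    LinearEquiv.finrank_eq (Submodule.equivMapOfInjective _ V0.injective_subtype _).symm
  have fI : FiniteDimensional k (imF G (fun v => (c v) ^ p) κ) :=
    Submodule.finiteDimensional_of_le (imF_le G _ κ)
  have d1 := LinearMap.finrank_range_add_finrank_ker (K := k) (V := V0) (V₂ := Fn k n ⧸ I) g1
  have d2 := LinearMap.finrank_range_add_finrank_ker (K := k) (V := V0) (V₂ := Fn k n ⧸ I) g2
  have fM1 : FiniteDimensional k ((LinearMap.ker g1).map V0.subtype) :=
    Submodule.finiteDimensional_of_le (Submodule.map_subtype_le V0 _)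
  have e1 := Submodule.finrank_mono k1
  have e2 := Submodule.finrank_mono k2
  have e3 := Submodule.finrank_mono r1
  have e4 := Submodule.finrank_mono r2
  omega

end CharP

end MP_b07157_agE1
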