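import Mathlib
import Pool.Agent.Lib.MP_b07157_agE1.Rank

/-!
# Finite fields: `rank D = rank F`
-/

namespace MP_b07157_agE1

open Finset Module

section Map

variable {n : ℕ} {k k' : Type*} [Field k] [Field k']

/-- change of coefficients -/
noncomputable def mp (φ : k →+* k') : Fn k n →+ Fn k' n :=
  Finsupp.mapRange.addMonoidHom φ.toAddMonoidHom

theorem mp_single (φ : k →+* k') (m : Lat n) (r : k) :
    mp φ (Finsupp.single m r) = Finsupp.single m (φ r) := by
  simp [mp]

theorem mp_mem (φ : k →+* k') (s : Set (Lat n)) (w : Fn k n)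
    (hw : w ∈ Finsupp.supported k k s) : mp φ w ∈ Finsupp.supported k' k' s := by
  rw [Finsupp.mem_supported'] at hw ⊢
  intro m hm
  simp [mp, hw m hm]

theorem mp_Fop (φ : k →+* k') (S : Finset (Lat n)) (c : Lat n → k) (l : Fin n) (w : Fn k n) :
    mp φ (Fop S c l w) = Fop S (fun v => φ (c v)) l (mp φ w) := by
  induction w using Finsupp.induction_linear with
  | zero => simp
  | add f g hf hg => rw [map_add, map_add, map_add, map_add, hf, hg]
  | single m r =>
    rw [Fop_single, mp_single, Fop_single, map_sum]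
    refine Finset.sum_congr rfl fun v _ => ?_
    rw [mp_single]
    simp

theorem HF_map (φ : k →+* k') (G : Geo n) (c : Lat n → k) (J : ℤ) (h : HF G c J) :
    HF G (fun v => φ (c v)) J := by
  intro m hm hd
  obtain ⟨u, hu, hu2⟩ := h m hm hd
  rw [mem_UP] at hu
  refine ⟨fun l => mp φ (u l), ?_, ?_⟩
  · rw [mem_UP]
    intro l
    exact mp_mem φ _ _ (hu l)
  · have h1 := congrArg (mp φ) hu2
    rw [TF_apply, map_sum, mp_single, map_one] at h1
    rw [TF_apply, ← h1]
    exact Finset.sum_congr rfl fun l _ => (mp_Fop φ G.S c l (u l)).symm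

end Map

section CharP

variable {n : ℕ} {k : Type*} [Field k] (p : ℕ) [hp : Fact p.Prime] [hk : CharP k p]

theorem HF_pow (G : Geo n) (c : Lat n → k) (J : ℤ) (h : HF G c J) :
    HF G (fun v => (c v) ^ p) J := by
  have := HF_map (frobenius k p) G c J h
  simpa [frobenius_def] using this

theorem HF_pow_pow (G : Geo n) (c : Lat n → k) (J : ℤ) (h : HF G c J) (i : ℕ) :
    HF G (fun v => (c v) ^ (p ^ i)) J := by
  induction i with
  | zero => simpa using h
  | succ i ih =>
    have := HF_pow p G _ J ih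
    simpa [← pow_mul, ← pow_succ] using this

/-- **Strictness over finite fields.** -/
theorem rankD_le_rankF [Finite k] (G : Geo n) (c : Lat n → k) (b : Fin n → k) (hg : Good G b)
    (hb : ∀ l, (b l) ^ p = b l) (β : Lat n) (hβ : Scal p G β)
    (hbβ : ∀ l, (β l : k) + b l = 0) (J κ : ℤ) (hJ : J ≤ κ + G.N) (hF : HF G c J) :
    finrank k (imD G c b κ) ≤ finrank k (imF G c κ) := by
  have step : ∀ i : ℕ, finrank k (imD G (fun v => (c v) ^ (p ^ i)) b κ) ≤
      finrank k (imF G (fun v => (c v) ^ (p ^ (i+1))) κ) := by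
    intro i
    have h1 := rankD_le_rankFp p G (fun v => (c v) ^ (p ^ i)) b hg hb β hβ hbβ J κ hJ
      (HF_pow_pow p G c J hF i) (HF_pow p G _ J (HF_pow_pow p G c J hF i))
    have e : (fun v => ((c v) ^ (p ^ i)) ^ p) = fun v => (c v) ^ (p ^ (i+1)) := by
      funext v; rw [← pow_mul, ← pow_succ]
    rw [e] at h1
    exact h1
  have chain : ∀ i : ℕ, finrank k (imD G c b κ) ≤
      finrank k (imF G (fun v => (c v) ^ (p ^ (i+1))) κ) := by
    intro i
    induction i with
    | zero =>
      have h0 := step 0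
      have e : (fun v => (c v) ^ (p ^ 0)) = c := by funext v; rw [pow_zero, pow_one]
      rw [e] at h0
      exact h0
    | succ i ih => exact ih.trans ((rankF_le_rankD G _ b hg κ).trans (step (i+1)))
  have := Fintype.ofFinite k
  obtain ⟨e, -, he⟩ := FiniteField.card k p
  have he0 : 0 < (e : ℕ) := e.pos
  have h2 := chain ((e : ℕ) - 1)
  have e3 : (fun v => (c v) ^ (p ^ ((e : ℕ) - 1 + 1))) = c := by
    funext v; rw [Nat.sub_add_cancel he0, ← he, FiniteField.pow_card]
  rw [e3] at h2
  exact h2

end CharP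

end MP_b07157_agE1
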