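import Mathlib
import Pool.Agent.Lib.MP_b07157_agE1.Chain

/-!
# Matrices of `D` and `F` on finite windows
-/

namespace MP_b07157_agE1

open Finset Module

section Types

variable {n : ℕ}

/-- index set of the target window -/
abbrev W0 (G : Geo n) (κ : ℤ) : Type := {m : Lat n // m ∈ G.L0 ∧ G.dg m ≤ κ + G.N}

/-- index set of the source window -/
abbrev W1 (G : Geo n) (κ : ℤ) : Type :=
  {x : Fin n × Lat n // x.2 ∈ G.L x.1 ∧ G.dg x.2 ≤ κ}

instance (G : Geo n) (κ : ℤ) : Finite (W0 G κ) := G.fin0 (κ + G.N)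

instance (G : Geo n) (κ : ℤ) : Finite (W1 G κ) := by
  have h : (⋃ l : Fin n, (fun m : Lat n => (l, m)) '' {m | m ∈ G.L l ∧ G.dg m ≤ κ}).Finite :=
    Set.finite_iUnion fun l => (G.finL l κ).image _
  refine Set.Finite.subset h ?_
  rintro ⟨l, m⟩ hx
  exact Set.mem_iUnion.2 ⟨l, ⟨m, hx, rfl⟩⟩

noncomputable instance (G : Geo n) (κ : ℤ) : Fintype (W0 G κ) := Fintype.ofFinite _
noncomputable instance (G : Geo n) (κ : ℤ) : Fintype (W1 G κ) := Fintype.ofFinite _

/-- matrix of `θ + b` -/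
noncomputable def MxH {R : Type*} [CommRing R] (G : Geo n) (κ : ℤ) (b : Fin n → R) :
    Matrix (W0 G κ) (W1 G κ) R := fun m x =>
  if m.1 = x.1.2 then ((x.1.2 x.1.1 : ℤ) : R) + b x.1.1 else 0

/-- matrix of `F` -/
noncomputable def MxF {R : Type*} [CommRing R] (G : Geo n) (κ : ℤ) (c : Lat n → R) :
    Matrix (W0 G κ) (W1 G κ) R := fun m x =>
  ∑ v ∈ G.S, if m.1 = x.1.2 + v then c v * ((v x.1.1 : ℤ) : R) else 0

theorem MxH_map {R R' : Type*} [CommRing R] [CommRing R'] (φ : R →+* R') (G : Geo n) (κ : ℤ)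
    (b : Fin n → R) : (MxH G κ b).map φ = MxH G κ (fun l => φ (b l)) := by
  ext m x
  simp only [Matrix.map_apply, MxH]
  split_ifs <;> simp

theorem MxF_map {R R' : Type*} [CommRing R] [CommRing R'] (φ : R →+* R') (G : Geo n) (κ : ℤ)
    (c : Lat n → R) : (MxF G κ c).map φ = MxF G κ (fun v => φ (c v)) := by
  ext m x
  simp only [Matrix.map_apply, MxF, map_sum]
  refine Finset.sum_congr rfl fun v _ => ?_
  split_ifs <;> simp

end Types

section Field

variable {n : ℕ} {k : Type*} [Field k]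

noncomputable def j0 (G : Geo n) (κ : ℤ) : (W0 G κ → k) →ₗ[k] Fn k n :=
  ∑ m : W0 G κ, (Finsupp.lsingle m.1) ∘ₗ (LinearMap.proj m)

noncomputable def j1 (G : Geo n) (κ : ℤ) : (W1 G κ → k) →ₗ[k] (Fin n → Fn k n) :=
  ∑ x : W1 G κ, (LinearMap.single k (fun _ : Fin n => Fn k n) x.1.1) ∘ₗ
    (Finsupp.lsingle x.1.2) ∘ₗ (LinearMap.proj x)

theorem j0_apply (G : Geo n) (κ : ℤ) (f : W0 G κ → k) :
    j0 G κ f = ∑ m : W0 G κ, Finsupp.single m.1 (f m) := by
  simp [j0, LinearMap.sum_apply]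

theorem j1_apply (G : Geo n) (κ : ℤ) (g : W1 G κ → k) :
    j1 G κ g = ∑ x : W1 G κ, Pi.single x.1.1 (Finsupp.single x.1.2 (g x)) := by
  simp [j1, LinearMap.sum_apply]

theorem j0_coe (G : Geo n) (κ : ℤ) (f : W0 G κ → k) (m : W0 G κ) : (j0 G κ f) m.1 = f m := by
  rw [j0_apply, Finsupp.finsetSum_apply, Finset.sum_eq_single m]
  · simp
  · intro m' _ hm'
    rw [Finsupp.single_apply, if_neg]
    intro h
    exact hm' (Subtype.ext h)
  · intro h; exact absurd (Finset.mem_univ m) h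

theorem j0_inj (G : Geo n) (κ : ℤ) : Function.Injective (j0 G κ : (W0 G κ → k) →ₗ[k] Fn k n) := by
  intro f g h
  funext m
  rw [← j0_coe G κ f m, h, j0_coe]

theorem j1_mem (G : Geo n) (κ : ℤ) (g : W1 G κ → k) : j1 G κ g ∈ UP G (fun j => j ≤ κ) := by
  rw [j1_apply]
  refine Submodule.sum_mem _ fun x _ => ?_
  rw [mem_UP]
  intro l
  by_cases h : l = x.1.1
  · subst h
    rw [Pi.single_eq_same]
    exact single_mem _ _ (by exact ⟨x.2.1, x.2.2⟩) _
  · rw [Pi.single_eq_of_ne h]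
    exact Submodule.zero_mem _

theorem j1_surj (G : Geo n) (κ : ℤ) (u : Fin n → Fn k n) (hu : u ∈ UP G (fun j => j ≤ κ)) :
    ∃ g, j1 G κ g = u := by
  classical
  rw [mem_UP] at hu
  refine ⟨fun x => u x.1.1 x.1.2, ?_⟩
  rw [j1_apply]
  funext l
  ext m
  rw [Finset.sum_apply, Finsupp.finsetSum_apply]
  by_cases h : m ∈ G.L l ∧ G.dg m ≤ κ
  · rw [Finset.sum_eq_single (⟨(l, m), h⟩ : W1 G κ)]
    · simp
    · intro x _ hx
      by_cases hl : l = x.1.1
      · subst hl
        rw [Pi.single_eq_same, Finsupp.single_apply, if_neg]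
        intro h2
        apply hx
        apply Subtype.ext
        exact Prod.ext rfl h2
      · rw [Pi.single_eq_of_ne hl]; rfl
    · intro h2; exact absurd (Finset.mem_univ _) h2
  · have h1 := hu l
    rw [Finsupp.mem_supported'] at h1
    rw [h1 m h]
    refine Finset.sum_eq_zero fun x _ => ?_
    by_cases hl : l = x.1.1
    · subst hl
      rw [Pi.single_eq_same, Finsupp.single_apply, if_neg]
      intro h2
      apply h
      rw [← h2]
      exact x.2
    · rw [Pi.single_eq_of_ne hl]; rfl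

theorem TF_j1 (G : Geo n) (κ : ℤ) (c : Lat n → k) (g : W1 G κ → k) :
    TF G c (j1 G κ g) = j0 G κ ((MxF G κ c).mulVec g) := by
  classical
  rw [j1_apply, j0_apply, map_sum]
  have e1 : ∑ m : W0 G κ, Finsupp.single m.1 ((MxF G κ c).mulVec g m) =
      ∑ x : W1 G κ, ∑ m : W0 G κ, Finsupp.single m.1 (MxF G κ c m x * g x) := by
    rw [Finset.sum_comm]
    refine Finset.sum_congr rfl fun m _ => ?_
    rw [Matrix.mulVec, dotProduct, Finsupp.single_finsetSum]
  rw [e1]
  refine Finset.sum_congr rfl fun x _ => ?_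
  rw [TF_apply, Finset.sum_eq_single x.1.1]
  · rw [Pi.single_eq_same, Fop_single]
    have e2 : ∑ m : W0 G κ, Finsupp.single m.1 (MxF G κ c m x * g x) =
        ∑ v ∈ G.S, ∑ m : W0 G κ, Finsupp.single m.1
          ((if m.1 = x.1.2 + v then c v * ((v x.1.1 : ℤ) : k) else 0) * g x) := by
      rw [Finset.sum_comm]
      refine Finset.sum_congr rfl fun m _ => ?_
      rw [MxF, Finset.sum_mul, Finsupp.single_finsetSum]
    rw [e2]
    refine Finset.sum_congr rfl fun v hv => ?_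
    by_cases hv0 : v x.1.1 = 0
    · rw [hv0]
      simp
    · have h1 : x.1.2 + v ∈ G.L0 := by
        by_cases h : x.1.2 ∈ G.L0
        · exact G.add0 v hv _ h
        · exact (G.jump x.1.1 x.1.2 x.2.1 h).2 v hv hv0
      have h2 : G.dg (x.1.2 + v) ≤ κ + G.N := by
        rw [map_add, G.hS v hv]
        have := x.2.2
        omega
      rw [Finset.sum_eq_single (⟨x.1.2 + v, h1, h2⟩ : W0 G κ)]
      · rw [if_pos rfl]
      · intro m _ hm
        rw [if_neg, zero_mul, Finsupp.single_zero]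
        intro h3
        exact hm (Subtype.ext h3)
      · intro h3; exact absurd (Finset.mem_univ _) h3
  · intro l _ hl
    rw [Pi.single_eq_of_ne hl, map_zero]
  · intro h; exact absurd (Finset.mem_univ _) h

theorem TH_j1 (G : Geo n) (κ : ℤ) (b : Fin n → k) (hb : Good G b) (g : W1 G κ → k) :
    TH b (j1 G κ g) = j0 G κ ((MxH G κ b).mulVec g) := by
  classical
  have hN := G.hN
  rw [j1_apply, j0_apply, map_sum]
  have e1 : ∑ m : W0 G κ, Finsupp.single m.1 ((MxH G κ b).mulVec g m) =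
      ∑ x : W1 G κ, ∑ m : W0 G κ, Finsupp.single m.1 (MxH G κ b m x * g x) := by
    rw [Finset.sum_comm]
    refine Finset.sum_congr rfl fun m _ => ?_
    rw [Matrix.mulVec, dotProduct, Finsupp.single_finsetSum]
  rw [e1]
  refine Finset.sum_congr rfl fun x _ => ?_
  rw [TH_apply, Finset.sum_eq_single x.1.1]
  · rw [Pi.single_eq_same, th_single]
    by_cases h : x.1.2 ∈ G.L0
    · have h2 : G.dg x.1.2 ≤ κ + G.N := by
        have := x.2.2
        omega
      rw [Finset.sum_eq_single (⟨x.1.2, h, h2⟩ : W0 G κ)]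
      · rw [MxH, if_pos rfl]
      · intro m _ hm
        rw [MxH, if_neg, zero_mul, Finsupp.single_zero]
        intro h3
        exact hm (Subtype.ext h3)
      · intro h3; exact absurd (Finset.mem_univ _) h3
    · have h1 := (G.jump x.1.1 x.1.2 x.2.1 h).1
      have h2 := hb x.1.1 ⟨x.1.2, x.2.1, h⟩
      rw [h1, h2]
      simp only [Int.cast_neg, Int.cast_one, neg_add_cancel, zero_mul, Finsupp.single_zero]
      refine (Finset.sum_eq_zero fun m _ => ?_).symm
      rw [MxH, if_neg, zero_mul, Finsupp.single_zero]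
      intro h3
      exact h (h3 ▸ m.2.1)
  · intro l _ hl
    rw [Pi.single_eq_of_ne hl, map_zero]
  · intro h; exact absurd (Finset.mem_univ _) h

theorem finrank_imF (G : Geo n) (κ : ℤ) (c : Lat n → k) :
    finrank k (imF G c κ) = (MxF G κ c).rank := by
  have h1 : imF G c κ = (LinearMap.range (MxF G κ c).mulVecLin).map (j0 G κ) := by
    ext z
    constructor
    · rintro ⟨u, hu, rfl⟩
      obtain ⟨g, rfl⟩ := j1_surj G κ u hu
      exact ⟨_, ⟨g, rfl⟩, (TF_j1 G κ c g).symm⟩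
    · rintro ⟨_, ⟨g, rfl⟩, rfl⟩
      exact ⟨j1 G κ g, j1_mem G κ g, TF_j1 G κ c g⟩
  rw [h1, Matrix.rank]
  exact LinearEquiv.finrank_eq (Submodule.equivMapOfInjective _ (j0_inj G κ) _).symm

theorem TD_j1 (G : Geo n) (κ : ℤ) (c : Lat n → k) (b : Fin n → k) (hb : Good G b)
    (g : W1 G κ → k) :
    TD G c b (j1 G κ g) = j0 G κ ((MxH G κ b + MxF G κ c).mulVec g) := by
  rw [TD_eq, TH_j1 G κ b hb, TF_j1, Matrix.add_mulVec, map_add]

theorem finrank_imD (G : Geo n) (κ : ℤ) (c : Lat n → k) (b : Fin n → k) (hb : Good G b) :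
    finrank k (imD G c b κ) = (MxH G κ b + MxF G κ c).rank := by
  have h1 : imD G c b κ =
      (LinearMap.range (MxH G κ b + MxF G κ c).mulVecLin).map (j0 G κ) := by
    ext z
    constructor
    · rintro ⟨u, hu, rfl⟩
      obtain ⟨g, rfl⟩ := j1_surj G κ u hu
      exact ⟨_, ⟨g, rfl⟩, (TD_j1 G κ c b hb g).symm⟩
    · rintro ⟨_, ⟨g, rfl⟩, rfl⟩
      exact ⟨j1 G κ g, j1_mem G κ g, TD_j1 G κ c b hb g⟩
  rw [h1, Matrix.rank]
  exact LinearEquiv.finrank_eq (Submodule.equivMapOfInjective _ (j0_inj G κ) _).symm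

end Field

end MP_b07157_agE1
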