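import Mathlib

/-!
# Residue fields of finitely generated rings
-/

namespace MP_b07157_agE1

open Finset TensorProduct

theorem isJacobsonRing_int : IsJacobsonRing ℤ := by
  rw [isJacobsonRing_iff_prime_eq]
  intro P hP
  by_cases h : P = ⊥
  · subst h
    rw [eq_bot_iff]
    intro x hx
    rw [Ideal.mem_jacobson_bot] at hx
    have h1 := hx 1
    have h2 := hx 2
    rw [Int.isUnit_iff] at h1 h2
    rw [Ideal.mem_bot]
    omega
  · have : P.IsMaximal := hP.isMaximal h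
    exact Ideal.jacobson_eq_self_of_isMaximal

theorem notUnit_aux (R : Type) [CommRing R] [Algebra.FiniteType ℤ R] (L : Type) [Field L]
    [CharZero L] (ρ : R →+* L) (halg : ∀ x : L, ∃ y : ℤ, y ≠ 0 ∧ IsIntegral ℤ (y • x)) :
    ∃ M : ℕ, 0 < M ∧ ∀ p : ℕ, p.Prime → ¬ p ∣ M → ¬ IsUnit (p : R) := by
  classical
  obtain ⟨s, hs⟩ := (inferInstance : Algebra.FiniteType ℤ R).out
  choose y hy0 hy using fun x : R => halg (ρ x)
  let M : ℤ := ∏ x ∈ s, y x
  have hM0 : M ≠ 0 := Finset.prod_ne_zero_iff.2 fun x _ => hy0 x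
  have hint : ∀ r : R, ∃ e : ℕ, IsIntegral ℤ ((M ^ e : ℤ) • ρ r) := by
    intro r
    have hr : r ∈ Algebra.adjoin ℤ (s : Set R) := by rw [hs]; trivial
    induction hr using Algebra.adjoin_induction with
    | mem x hx =>
      refine ⟨1, ?_⟩
      have h1 : M = (∏ x' ∈ s.erase x, y x') * y x := (Finset.prod_erase_mul _ _ hx).symm
      rw [pow_one, h1, mul_smul]
      exact (hy x).smul _
    | algebraMap z =>
      refine ⟨0, ?_⟩
      have : ρ ((algebraMap ℤ R) z) = algebraMap ℤ L z := by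
        rw [eq_intCast, eq_intCast, map_intCast]
      rw [this]
      exact isIntegral_algebraMap.smul _
    | add a b _ _ ha hb =>
      obtain ⟨e1, h1⟩ := ha
      obtain ⟨e2, h2⟩ := hb
      refine ⟨e1 + e2, ?_⟩
      have e : (M ^ (e1 + e2) : ℤ) • ρ (a + b) =
          (M ^ e2 : ℤ) • ((M ^ e1 : ℤ) • ρ a) + (M ^ e1 : ℤ) • ((M ^ e2 : ℤ) • ρ b) := by
        rw [map_add, smul_add, smul_smul, smul_smul, ← pow_add, ← pow_add, add_comm e2 e1]
      rw [e]
      exact (h1.smul _).add (h2.smul _)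
    | mul a b _ _ ha hb =>
      obtain ⟨e1, h1⟩ := ha
      obtain ⟨e2, h2⟩ := hb
      refine ⟨e1 + e2, ?_⟩
      have e : (M ^ (e1 + e2) : ℤ) • ρ (a * b) =
          ((M ^ e1 : ℤ) • ρ a) * ((M ^ e2 : ℤ) • ρ b) := by
        rw [map_mul, smul_mul_smul_comm, ← pow_add]
      rw [e]
      exact h1.mul h2
  refine ⟨M.natAbs, Int.natAbs_pos.2 hM0, ?_⟩
  intro p hp hpM
  · intro hu
    obtain ⟨r, hr⟩ := hu.exists_right_inv
    obtain ⟨e, he⟩ := hint r
    have hp0 : (p : L) ≠ 0 := by exact_mod_cast hp.ne_zero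
    have h1 : (p : L) * ρ r = 1 := by
      have := congrArg ρ hr
      rwa [map_mul, map_natCast, map_one] at this
    have h2 : (M ^ e : ℤ) • ρ r = algebraMap ℚ L ((M : ℚ) ^ e / p) := by
      rw [map_div₀, map_pow, map_intCast, map_natCast, eq_div_iff hp0, zsmul_eq_mul, mul_assoc,
        mul_comm (ρ r), h1]
      push_cast
      ring
    rw [h2] at he
    have h3 : IsIntegral ℤ ((M : ℚ) ^ e / p) :=
      (isIntegral_algebraMap_iff (algebraMap ℚ L).injective).1 he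
    obtain ⟨z, hz⟩ := IsIntegrallyClosed.isIntegral_iff.1 h3
    have hp0' : (p : ℚ) ≠ 0 := by exact_mod_cast hp.ne_zero
    rw [eq_div_iff hp0'] at hz
    have h4 : z * (p : ℤ) = M ^ e := by
      have : ((z * (p : ℤ) : ℤ) : ℚ) = ((M ^ e : ℤ) : ℚ) := by
        push_cast
        rw [← hz]
        simp
      exact_mod_cast this
    have h5 : (p : ℤ) ∣ M ^ e := ⟨z, by rw [← h4, mul_comm]⟩
    have h6 : (p : ℤ) ∣ M := Int.Prime.dvd_pow' hp h5
    exact hpM (Int.natCast_dvd.1 h6)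

theorem exists_residue (R : Type) [CommRing R] [Algebra.FiniteType ℤ R] (K : Type) [Field K]
    [CharZero K] (j : R →+* K) :
    ∃ M : ℕ, 0 < M ∧ ∀ p : ℕ, p.Prime → ¬ p ∣ M →
      ∃ (k : Type) (_ : Field k) (_ : Finite k) (_ : CharP k p), Nonempty (R →+* k) := by
  classical
  have hnt : Nontrivial (ℚ ⊗[ℤ] R) := by
    let f1 : ℚ →ₐ[ℤ] K := (algebraMap ℚ K).toIntAlgHom
    let f2 : R →ₐ[ℤ] K := j.toIntAlgHom
    let f : (ℚ ⊗[ℤ] R) →ₐ[ℤ] K := Algebra.TensorProduct.lift f1 f2 (fun _ _ => Commute.all _ _)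
    exact f.toRingHom.domain_nontrivial
  obtain ⟨m, hm⟩ := Ideal.exists_maximal (ℚ ⊗[ℤ] R)
  let L := (ℚ ⊗[ℤ] R) ⧸ m
  letI : Field L := Ideal.Quotient.field m
  have hfin : Module.Finite ℚ L := finite_of_finite_type_of_isJacobsonRing ℚ L
  let ρ : R →+* L := (Ideal.Quotient.mk m).comp
    (Algebra.TensorProduct.includeRight : R →ₐ[ℤ] (ℚ ⊗[ℤ] R)).toRingHom
  have halg : ∀ x : L, ∃ y : ℤ, y ≠ 0 ∧ IsIntegral ℤ (y • x) := by
    intro x
    have h1 : IsAlgebraic ℚ x := Algebra.IsAlgebraic.isAlgebraic x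
    have h2 : IsAlgebraic ℤ x := (IsFractionRing.isAlgebraic_iff ℤ ℚ L).2 h1
    exact h2.exists_integral_multiple
  have hcz : CharZero L := algebraRat.charZero L
  obtain ⟨M, hM, hM2⟩ := notUnit_aux R L ρ halg
  refine ⟨M, hM, fun p hp hpM => ?_⟩
  have hnu := hM2 p hp hpM
  have hne : Ideal.span {(p : R)} ≠ ⊤ := by
    rwa [Ne, Ideal.span_singleton_eq_top]
  obtain ⟨q, hq, hpq⟩ := Ideal.exists_le_maximal _ hne
  letI : Field (R ⧸ q) := Ideal.Quotient.field q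
  have hj := isJacobsonRing_int
  have hfz : Module.Finite ℤ (R ⧸ q) := finite_of_finite_type_of_isJacobsonRing ℤ (R ⧸ q)
  have hpz : ((p : ℕ) : R ⧸ q) = 0 := by
    have h1 : (p : R) ∈ q := hpq (Ideal.mem_span_singleton_self _)
    have h2 := Ideal.Quotient.eq_zero_iff_mem.2 h1
    rwa [map_natCast] at h2
  have hchar : CharP (R ⧸ q) p := by
    obtain ⟨r, hr⟩ := CharP.exists (R ⧸ q)
    have h1 : r ∣ p := (CharP.cast_eq_zero_iff (R ⧸ q) r p).1 hpz
    rcases (Nat.dvd_prime hp).1 h1 with h2 | h2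
    · subst h2
      exact absurd ((CharP.cast_eq_zero_iff (R ⧸ q) 1 1).2 (dvd_refl 1))
        (by rw [Nat.cast_one]; exact one_ne_zero)
    · subst h2; exact hr
  have hprime : Fact p.Prime := ⟨hp⟩
  letI : Algebra (ZMod p) (R ⧸ q) := ZMod.algebra (R ⧸ q) p
  have hf2 : Module.Finite (ZMod p) (R ⧸ q) :=
    Module.Finite.of_restrictScalars_finite ℤ (ZMod p) (R ⧸ q)
  have hf3 : Finite (R ⧸ q) := Module.finite_of_finite (ZMod p)
  exact ⟨R ⧸ q, inferInstance, hf3, hchar, ⟨Ideal.Quotient.mk q⟩⟩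

end MP_b07157_agE1
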