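import Mathlib
import Pool.Agent.Lib.MP_b07157_agE1.Link
import Pool.Agent.Lib.MP_b07157_agE1.Cert
import Pool.Agent.Lib.MP_b07157_agE1.Residue

/-!
# Specialization: `rank D = rank F` over `ℂ` at rational exponents
-/

namespace MP_b07157_agE1

open Finset Module

section Window

variable {n : ℕ}

/-- the part of the window of degree at least `J` -/
abbrev Whi (G : Geo n) (κ J : ℤ) : Type := {m : W0 G κ // J ≤ G.dg m.1}

noncomputable instance (G : Geo n) (κ J : ℤ) : Fintype (Whi G κ J) := Fintype.ofFinite _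

/-- the inclusion matrix -/
noncomputable def Ihi (R : Type*) [CommRing R] (G : Geo n) (κ J : ℤ) :
    Matrix (W0 G κ) (Whi G κ J) R := fun m m' => if m = m'.1 then 1 else 0

theorem Ihi_map {R R' : Type*} [CommRing R] [CommRing R'] (φ : R →+* R') (G : Geo n)
    (κ J : ℤ) : (Ihi R G κ J).map φ = Ihi R' G κ J := by
  ext m m'
  simp only [Matrix.map_apply, Ihi]
  split_ifs <;> simp

variable {k : Type*} [Field k]

theorem j0_single (G : Geo n) (κ : ℤ) (m : W0 G κ) :
    j0 G κ (fun m' => if m' = m then (1:k) else 0) = Finsupp.single m.1 1 := by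
  rw [j0_apply, Finset.sum_eq_single m]
  · rw [if_pos rfl]
  · intro m' _ hm'
    rw [if_neg hm', Finsupp.single_zero]
  · intro h; exact absurd (Finset.mem_univ _) h

theorem exists_Z (G : Geo n) (c : Lat n → k) (κ J : ℤ) (hF : HF G c J) :
    ∃ Z : Matrix (W1 G κ) (Whi G κ J) k, MxF G κ c * Z = Ihi k G κ J := by
  classical
  have h : ∀ m' : Whi G κ J, ∃ g : W1 G κ → k,
      (MxF G κ c).mulVec g = fun m => if m = m'.1 then (1:k) else 0 := by
    intro m'
    obtain ⟨u, hu, hu2⟩ := hF m'.1.1 m'.1.2.1 m'.2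
    have hu3 : u ∈ UP G (fun j => j ≤ κ) := by
      refine UP_mono G ?_ hu
      rintro j rfl
      have := m'.1.2.2
      omega
    obtain ⟨g, hg⟩ := j1_surj G κ u hu3
    refine ⟨g, j0_inj G κ ?_⟩
    rw [← TF_j1, hg, hu2, j0_single]
  choose g hg using h
  refine ⟨fun x m' => g m' x, ?_⟩
  ext m m'
  exact congrFun (hg m') m

theorem HF_of_Z (G : Geo n) (c : Lat n → k) (κ J J' : ℤ) (hJ1 : J' ≤ κ + G.N + 1)
    (hJ2 : J + G.N ≤ κ + G.N + 1)
    (hstep : ∀ m ∈ G.L0, J' ≤ G.dg m → ∃ v ∈ G.S, m - v ∈ G.L0)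
    (Z : Matrix (W1 G κ) (Whi G κ J) k) (hZ : MxF G κ c * Z = Ihi k G κ J) :
    HF G c J := by
  classical
  have hN := G.hN
  -- the window
  have win : ∀ m ∈ G.L0, J ≤ G.dg m → G.dg m ≤ κ + G.N →
      ∃ u ∈ (UP G (fun j => j = G.dg m - G.N) : Submodule k (Fin n → Fn k n)),
        TF G c u = Finsupp.single m 1 := by
    intro m hm hd hd2
    let m0 : W0 G κ := ⟨m, hm, hd2⟩
    let m' : Whi G κ J := ⟨m0, hd⟩
    have h1 : (MxF G κ c).mulVec (fun x => Z x m') = fun m => if m = m0 then (1:k) else 0 := by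
      funext m1
      exact congrFun (congrFun hZ m1) m'
    have h2 := TF_j1 G κ c (fun x => Z x m')
    rw [h1, j0_single] at h2
    have h3 := pd_TF G c (fun j => j = G.dg m) (j1 G κ (fun x => Z x m'))
    rw [h2, pd_single_mem _ _ (by exact rfl)] at h3
    refine ⟨_, ?_, h3.symm⟩
    refine UP_mono G ?_ (pdU_mem G _ (fun j => j + G.N = G.dg m) _ (j1_mem G κ _))
    rintro j ⟨-, hj⟩
    omega
  have key : ∀ i : ℕ, ∀ m ∈ G.L0, J ≤ G.dg m → G.dg m ≤ κ + G.N + i →
      ∃ u ∈ (UP G (fun j => j = G.dg m - G.N) : Submodule k (Fin n → Fn k n)),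
        TF G c u = Finsupp.single m 1 := by
    intro i
    induction i with
    | zero => intro m hm hd hd2; exact win m hm hd (by simpa using hd2)
    | succ i ih =>
      intro m hm hd hd2
      by_cases h : G.dg m ≤ κ + G.N
      · exact win m hm hd h
      obtain ⟨v, hv, hmv⟩ := hstep m hm (by omega)
      have e1 : G.dg (m - v) = G.dg m - G.N := by rw [map_sub, G.hS v hv]
      push_cast at hd2
      obtain ⟨u, hu, hu2⟩ := ih (m - v) hmv (by omega) (by omega)
      rw [mem_UP] at hu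
      refine ⟨fun l => sh v (u l), ?_, ?_⟩
      · rw [mem_UP]
        intro l
        refine maps_of_single (sh v) _ _ ?_ _ (hu l)
        rintro m1 ⟨hm1, hd1⟩
        rw [sh_single]
        have hd3 : G.dg (m1 + v) = G.dg m - G.N := by
          have hd4 : G.dg m1 = G.dg (m - v) - G.N := hd1
          rw [map_add, G.hS v hv, hd4, e1]
          ring
        exact single_mem _ _ (by exact ⟨G.add l v hv m1 hm1, hd3⟩) _
      · have h1 := congrArg (sh v) hu2
        rw [sh_single, sub_add_cancel, TF_apply, map_sum] at h1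
        rw [TF_apply, ← h1]
        refine Finset.sum_congr rfl fun l _ => ?_
        have h2 := (sh_comm_Fop G.S c l v).eq
        exact (LinearMap.congr_fun h2 (u l)).symm
  intro m hm hd
  exact key (G.dg m - (κ + G.N)).toNat m hm hd (by omega)

end Window

section Spec

variable {n : ℕ}

theorem MxF_congr {R : Type*} [CommRing R] (G : Geo n) (κ : ℤ) (c c' : Lat n → R)
    (h : ∀ v ∈ G.S, c v = c' v) : MxF G κ c = MxF G κ c' := by
  ext m x
  unfold MxF
  refine Finset.sum_congr rfl fun v hv => ?_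
  rw [h v hv]

/-- **Strictness over `ℂ` at rational exponents.** -/
theorem rankD_le_rankF_rat (G : Geo n) (κ : ℤ) (c : Lat n → ℂ) (a : Fin n → ℚ)
    (hgood : ∀ l, (∃ m ∈ G.L l, m ∉ G.L0) → a l = 1) (q : ℕ) (hq : 0 < q)
    (hsc : ∀ p : ℕ, p.Prime → p ≡ 1 [MOD q] →
      ∃ β : Lat n, (∀ l, (β l : ℚ) = ((p : ℚ) - 1) * a l) ∧ Scal p G β)
    (J : ℤ) (hJ : J ≤ κ + G.N) (hF : HF G c J)
    (hstep : ∃ J' : ℤ, ∀ m ∈ G.L0, J' ≤ G.dg m → ∃ v ∈ G.S, m - v ∈ G.L0) :
    finrank ℂ (imD G c (fun l => (a l : ℂ)) κ) ≤ finrank ℂ (imF G c κ) := by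
  classical
  have hN := G.hN
  obtain ⟨J', hstep⟩ := hstep
  by_contra hcon
  have hga : Good G (fun l => (a l : ℂ)) := by
    intro l hl
    simp [hgood l hl]
  rw [finrank_imD G κ c _ hga, finrank_imF G κ c, not_le] at hcon
  set M2 := MxF G κ c with hM2
  set M1 := MxH G κ (fun l => (a l : ℂ)) + MxF G κ c with hM1
  obtain ⟨X, Y, hXY⟩ := rank_factor M2
  obtain ⟨P, Q, hPQ⟩ := rank_unit M1
  -- the second window
  set κ2 : ℤ := max J J' with hκ2
  obtain ⟨Z, hZ⟩ := exists_Z G c κ2 J hF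
  -- the ring
  let T : Set ℂ := (Set.range fun x : W0 G κ × Fin M2.rank => X x.1 x.2) ∪
    (Set.range fun x : Fin M2.rank × W1 G κ => Y x.1 x.2) ∪
    (Set.range fun x : Fin M1.rank × W0 G κ => P x.1 x.2) ∪
    (Set.range fun x : W1 G κ × Fin M1.rank => Q x.1 x.2) ∪
    (Set.range fun x : W1 G κ2 × Whi G κ2 J => Z x.1 x.2) ∪
    (c '' (G.S : Set (Lat n))) ∪ (Set.range fun l : Fin n => (a l : ℂ))
  have hT : T.Finite := by
    refine Set.Finite.union (Set.Finite.union (Set.Finite.union (Set.Finite.union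
      (Set.Finite.union (Set.Finite.union ?_ ?_) ?_) ?_) ?_) ?_) ?_
    · exact Set.finite_range _
    · exact Set.finite_range _
    · exact Set.finite_range _
    · exact Set.finite_range _
    · exact Set.finite_range _
    · exact (Finset.finite_toSet _).image _
    · exact Set.finite_range _
  let R : Subalgebra ℤ ℂ := Algebra.adjoin ℤ T
  have hTR : T ⊆ R := Algebra.subset_adjoin
  have hft : Algebra.FiniteType ℤ R :=
    (Subalgebra.fg_iff_finiteType R).1 (Subalgebra.fg_def.2 ⟨T, hT, rfl⟩)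
  obtain ⟨X', hX'⟩ := exists_lift R X (fun a b => hTR (by
    iterate 6 refine Set.mem_union_left _ ?_
    exact ⟨(a, b), rfl⟩))
  obtain ⟨Y', hY'⟩ := exists_lift R Y (fun a b => hTR (by
    iterate 5 refine Set.mem_union_left _ ?_
    exact Set.mem_union_right _ ⟨(a, b), rfl⟩))
  obtain ⟨P', hP'⟩ := exists_lift R P (fun a b => hTR (by
    iterate 4 refine Set.mem_union_left _ ?_
    exact Set.mem_union_right _ ⟨(a, b), rfl⟩))
  obtain ⟨Q', hQ'⟩ := exists_lift R Q (fun a b => hTR (by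
    iterate 3 refine Set.mem_union_left _ ?_
    exact Set.mem_union_right _ ⟨(a, b), rfl⟩))
  obtain ⟨Z', hZ'⟩ := exists_lift R Z (fun a b => hTR (by
    iterate 2 refine Set.mem_union_left _ ?_
    exact Set.mem_union_right _ ⟨(a, b), rfl⟩))
  have hcR : ∀ v ∈ G.S, c v ∈ R := fun v hv => hTR (by
    refine Set.mem_union_left _ ?_
    exact Set.mem_union_right _ ⟨v, hv, rfl⟩)
  have haR : ∀ l, (a l : ℂ) ∈ R := fun l => hTR (by
    exact Set.mem_union_right _ ⟨l, rfl⟩)
  let c' : Lat n → R := fun v => if h : v ∈ G.S then ⟨c v, hcR v h⟩ else 0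
  let a' : Fin n → R := fun l => ⟨(a l : ℂ), haR l⟩
  have hc' : ∀ κ : ℤ, (MxF G κ c').map (algebraMap R ℂ) = MxF G κ c := by
    intro κ
    rw [MxF_map]
    refine MxF_congr G κ _ _ fun v hv => ?_
    simp only [c', dif_pos hv]
    rfl
  have ha' : (MxH G κ a').map (algebraMap R ℂ) = MxH G κ (fun l => (a l : ℂ)) := by
    rw [MxH_map]
    rfl
  have hXY' : MxF G κ c' = X' * Y' := by
    apply lift_inj R
    rw [Matrix.map_mul, hc', hX', hY']
    exact hXY
  have hPQ' : P' * (MxH G κ a' + MxF G κ c') * Q' = 1 := by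
    apply lift_inj R
    rw [Matrix.map_mul, Matrix.map_mul, Matrix.map_add _ (map_add _), hc', ha', hP', hQ',
      Matrix.map_one _ (map_zero _) (map_one _)]
    exact hPQ
  have hZZ' : MxF G κ2 c' * Z' = Ihi R G κ2 J := by
    apply lift_inj R
    rw [Matrix.map_mul, hc', hZ', Ihi_map]
    exact hZ
  -- the residue field
  obtain ⟨M0, hM0, hres⟩ := exists_residue R ℂ (algebraMap R ℂ)
  obtain ⟨p, hp, hpM, hpq⟩ := Nat.exists_prime_gt_modEq_one M0 hq.ne'
  obtain ⟨k, hkf, hkfin, hkc, ⟨φ⟩⟩ := hres p hp (fun h => by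
    have := Nat.le_of_dvd hM0 h
    omega)
  have hfact : Fact p.Prime := ⟨hp⟩
  obtain ⟨β, hβ, hβs⟩ := hsc p hp hpq
  -- ranks over `k`
  have r1 : (MxF G κ (fun v => φ (c' v))).rank ≤ M2.rank := by
    rw [← MxF_map]
    exact rank_map_le φ _ X' Y' hXY'
  have r2 : M1.rank ≤ (MxH G κ (fun l => φ (a' l)) + MxF G κ (fun v => φ (c' v))).rank := by
    rw [← MxF_map, ← MxH_map, ← Matrix.map_add _ (map_add _)]
    exact le_rank_map φ _ P' Q' hPQ'
  have hHF : HF G (fun v => φ (c' v)) J := by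
    refine HF_of_Z G _ κ2 J J' ?_ ?_ hstep (Z'.map φ) ?_
    · have := le_max_right J J'
      omega
    · have := le_max_left J J'
      omega
    · rw [← MxF_map, ← Matrix.map_mul, hZZ', Ihi_map]
  have hβa : ∀ l, (β l : k) + φ (a' l) = 0 := by
    intro l
    have h1 : ((β l : ℤ) : R) = ((p : R) - 1) * a' l := by
      apply Subtype.ext
      have h2 := hβ l
      have h3 : ((β l : ℚ) : ℂ) = (((p : ℚ) - 1) * a l : ℚ) := by rw [h2]
      push_cast at h3 ⊢
      exact h3
    have h2 := congrArg φ h1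
    rw [map_mul, map_sub, map_natCast, map_intCast, map_one, CharP.cast_eq_zero k p] at h2
    rw [h2]
    ring
  have hbp : ∀ l, (φ (a' l)) ^ p = φ (a' l) := by
    intro l
    have h1 : φ (a' l) = ((-β l : ℤ) : k) := by
      have := hβa l
      push_cast
      linear_combination this
    rw [h1, intCast_pow_char]
  have hgk : Good G (fun l => φ (a' l)) := by
    intro l hl
    have h1 := hgood l hl
    have h2 : a' l = 1 := by
      apply Subtype.ext
      change ((a l : ℚ) : ℂ) = 1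
      rw [h1, Rat.cast_one]
    change φ (a' l) = 1
    rw [h2, map_one]
  have key := rankD_le_rankF p G (fun v => φ (c' v)) (fun l => φ (a' l)) hgk hbp β hβs hβa J κ
    hJ hHF
  rw [finrank_imD G κ _ _ hgk, finrank_imF G κ] at key
  omega

end Spec

end MP_b07157_agE1
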