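import Mathlib
import Pool.Agent.Lib.MP_b07157_agE1.Line
import Pool.Agent.Lib.MP_b07157_agT.Fin
import Pool.Agent.Lib.MP_b07157_agT.DDefs

/-!
# The data of a face
-/

namespace MP_b07157_agE1

open Finset Module Matrix
open MPb07157T (et ee H2 Fs WOK rdot LFun SuppIn Deg Eop gi vec)

variable {n : ℕ}

/-- the lattice set of the face of `κ` at `-a` (verbatim `MPb07157T.MM`) -/
def MMs (Sg : Finset ((Fin n → ℤ) × ℤ)) (κ : (Fin n → ℤ) × ℤ) (a : Fin n → ℝ) :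
    Set (Fin n → ℤ) :=
  {m | κ.2 ∣ κ.1 ⬝ᵥ m ∧ (∀ j, -a j ≤ m j) ∧ ∀ τ ∈ Sg, -rdot (et κ τ) a ≤ ((et κ τ ⬝ᵥ m : ℤ) : ℝ)}

/-- rational to real vectors -/
def rv (a : Fin n → ℚ) : Fin n → ℝ := fun j => (a j : ℝ)

theorem mem_Fs {F : (Fin n → ℤ) →₀ ℂ} {κ : (Fin n → ℤ) × ℤ} {v : Fin n → ℤ} :
    v ∈ (Fs κ F).support ↔ v ∈ F.support ∧ κ.1 ⬝ᵥ v = κ.2 := by
  classical
  unfold Fs
  rw [Finsupp.support_filter, Finset.mem_filter]

theorem et_dot (κ τ : (Fin n → ℤ) × ℤ) (v : Fin n → ℤ) :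
    et κ τ ⬝ᵥ v = κ.2 * (τ.1 ⬝ᵥ v) - τ.2 * (κ.1 ⬝ᵥ v) := by
  unfold et
  rw [sub_dotProduct, smul_dotProduct, smul_dotProduct]
  rfl

theorem rdot_add {r : ℕ} (h : Fin r → ℤ) (x y : Fin r → ℝ) : rdot h (x + y) = rdot h x + rdot h y := by
  unfold rdot
  rw [← Finset.sum_add_distrib]
  exact Finset.sum_congr rfl fun i _ => by rw [Pi.add_apply, mul_add]

theorem rdot_smul {r : ℕ} (h : Fin r → ℤ) (c : ℝ) (x : Fin r → ℝ) :
    rdot h (c • x) = c * rdot h x := by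
  unfold rdot
  rw [Finset.mul_sum]
  exact Finset.sum_congr rfl fun i _ => by rw [Pi.smul_apply, smul_eq_mul]; ring

theorem rdot_int {r : ℕ} (h v : Fin r → ℤ) : rdot h (fun i => (v i : ℝ)) = ((h ⬝ᵥ v : ℤ) : ℝ) := by
  unfold rdot dotProduct
  push_cast
  rfl

section Geo

variable {F : (Fin n → ℤ) →₀ ℂ} {Sg : Finset ((Fin n → ℤ) × ℤ)} (hW : WOK Sg F)
  {κ : (Fin n → ℤ) × ℤ} (hκ : κ ∈ Sg) (a : Fin n → ℚ) (S : Finset (Fin n))
  (haS1 : ∀ j ∈ S, a j = 1)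

include hW hκ

theorem MMs_add {v m : Fin n → ℤ} (hv : v ∈ (Fs κ F).support) (hm : m ∈ MMs Sg κ (rv a)) :
    m + v ∈ MMs Sg κ (rv a) := by
  obtain ⟨hvF, hvκ⟩ := mem_Fs.1 hv
  obtain ⟨h1, h2, h3⟩ := hm
  refine ⟨?_, ?_, ?_⟩
  · rw [dotProduct_add, hvκ]
    exact dvd_add h1 (dvd_refl _)
  · intro j
    have := hW.nonneg v hvF j
    have h4 : (0:ℝ) ≤ (v j : ℝ) := by exact_mod_cast this
    have := h2 j
    rw [Pi.add_apply]
    push_cast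
    linarith
  · intro τ hτ
    have h4 := h3 τ hτ
    have h5 : 0 ≤ et κ τ ⬝ᵥ v := by
      rw [et_dot, hvκ]
      have h6 := hW.le τ hτ v hvF
      have h7 := hW.posN κ hκ
      nlinarith
    have h8 : (0:ℝ) ≤ ((et κ τ ⬝ᵥ v : ℤ) : ℝ) := by exact_mod_cast h5
    rw [dotProduct_add]
    push_cast
    linarith

theorem MMs_fin (c : ℤ) : {m : Fin n → ℤ | m ∈ MMs Sg κ (rv a) ∧ κ.1 ⬝ᵥ m ≤ c}.Finite := by
  let lo : Fin n → ℤ := fun j => -⌈a j⌉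
  let s : ℤ := ∑ i, κ.1 i * |⌈a i⌉|
  let hi : Fin n → ℤ := fun _ => |c| + s
  refine (Set.finite_Icc lo hi).subset ?_
  rintro m ⟨⟨-, h2, -⟩, hc⟩
  have hlo : ∀ j, lo j ≤ m j := by
    intro j
    have h3 : -(a j : ℝ) ≤ (m j : ℝ) := h2 j
    have h4 : -(a j : ℚ) ≤ (m j : ℚ) := by exact_mod_cast h3
    change -⌈a j⌉ ≤ m j
    have h0 : -((⌈a j⌉ : ℤ) : ℚ) ≤ (m j : ℚ) := by
      have := Int.le_ceil (a j)
      linarith
    exact_mod_cast h0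
  refine Set.mem_Icc.2 ⟨hlo, ?_⟩
  intro j
  have hpos := fun i => hW.posw κ hκ i
  have h5 : κ.1 j * m j ≤ c + ∑ i ∈ univ.erase j, κ.1 i * |⌈a i⌉| := by
    have h6 : κ.1 ⬝ᵥ m = κ.1 j * m j + ∑ i ∈ univ.erase j, κ.1 i * m i := by
      unfold dotProduct
      rw [Finset.add_sum_erase _ (fun i => κ.1 i * m i) (mem_univ j)]
    have h7 : -∑ i ∈ univ.erase j, κ.1 i * |⌈a i⌉| ≤ ∑ i ∈ univ.erase j, κ.1 i * m i := by
      rw [← Finset.sum_neg_distrib]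
      refine Finset.sum_le_sum fun i _ => ?_
      have h8 := hlo i
      have h9 : -⌈a i⌉ ≤ m i := h8
      have h10 := neg_abs_le (⌈a i⌉)
      have h11 := le_abs_self (⌈a i⌉)
      have h12 := hpos i
      nlinarith
    linarith
  have h8 : ∑ i ∈ univ.erase j, κ.1 i * |⌈a i⌉| ≤ s := by
    refine Finset.sum_le_sum_of_subset_of_nonneg (Finset.erase_subset _ _) ?_
    intro i _ _
    exact mul_nonneg (hpos i).le (abs_nonneg _)
  have h9 := le_abs_self c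
  have h10 := hpos j
  have hs : 0 ≤ s := Finset.sum_nonneg fun i _ => mul_nonneg (hpos i).le (abs_nonneg _)
  change m j ≤ |c| + s
  by_cases hmj : m j ≤ 0
  · have := abs_nonneg c
    linarith
  · push Not at hmj
    nlinarith

theorem MMs_lb : ∀ m ∈ MMs Sg κ (rv a), -∑ i, κ.1 i * |⌈a i⌉| ≤ κ.1 ⬝ᵥ m := by
  rintro m ⟨-, h2, -⟩
  unfold dotProduct
  rw [← Finset.sum_neg_distrib]
  refine Finset.sum_le_sum fun j _ => ?_
  have h3 : -(a j : ℝ) ≤ (m j : ℝ) := h2 j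
  have h4 : -(a j : ℚ) ≤ (m j : ℚ) := by exact_mod_cast h3
  have h5 : -⌈a j⌉ ≤ m j := by
    have h0 : -((⌈a j⌉ : ℤ) : ℚ) ≤ (m j : ℚ) := by
      have := Int.le_ceil (a j)
      linarith
    exact_mod_cast h0
  have h11 := le_abs_self (⌈a j⌉)
  have h12 := hW.posw κ hκ j
  nlinarith

end Geo

/-- The geometric data of the face. -/
noncomputable def faceGeo {F : (Fin n → ℤ) →₀ ℂ} {Sg : Finset ((Fin n → ℤ) × ℤ)} (hW : WOK Sg F)
    {κ : (Fin n → ℤ) × ℤ} (hκ : κ ∈ Sg) (a : Fin n → ℚ) (S : Finset (Fin n))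
    (haS1 : ∀ j ∈ S, a j = 1) : Geo n where
  S := (Fs κ F).support
  L0 := {m | m ∈ MMs Sg κ (rv a) ∧ ∀ j ∈ S, 0 ≤ m j}
  L l := {m | m ∈ MMs Sg κ (rv a) ∧ ∀ j ∈ S, j ≠ l → 0 ≤ m j}
  dg := { toFun := fun m => κ.1 ⬝ᵥ m
          map_zero' := dotProduct_zero _
          map_add' := dotProduct_add _ }
  N := κ.2
  B := -∑ i, κ.1 i * |⌈a i⌉|
  hN := hW.posN κ hκ
  hS := fun v hv => (mem_Fs.1 hv).2
  sub := fun l m hm => ⟨hm.1, fun j hj _ => hm.2 j hj⟩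
  add0 := fun v hv m hm => ⟨MMs_add hW hκ a hv hm.1, fun j hj => by
    have h1 := hm.2 j hj
    have h2 := hW.nonneg v (mem_Fs.1 hv).1 j
    rw [Pi.add_apply]; omega⟩
  add := fun l v hv m hm => ⟨MMs_add hW hκ a hv hm.1, fun j hj hjl => by
    have h1 := hm.2 j hj hjl
    have h2 := hW.nonneg v (mem_Fs.1 hv).1 j
    rw [Pi.add_apply]; omega⟩
  jump := by
    rintro l m ⟨hm1, hm2⟩ hm0
    have hl : l ∈ S ∧ m l < 0 := by
      by_contra hcon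
      apply hm0
      refine ⟨hm1, fun j hj => ?_⟩
      by_cases hjl : j = l
      · subst hjl
        by_contra h
        exact hcon ⟨hj, not_le.1 h⟩
      · exact hm2 j hj hjl
    have h1 : -((a l : ℚ) : ℝ) ≤ (m l : ℝ) := hm1.2.1 l
    rw [haS1 l hl.1] at h1
    have h2 : -1 ≤ m l := by
      have : -(1:ℝ) ≤ (m l : ℝ) := by simpa using h1
      exact_mod_cast this
    have h3 : m l = -1 := by have := hl.2; omega
    refine ⟨h3, fun v hv hv0 => ⟨MMs_add hW hκ a hv hm1, fun j hj => ?_⟩⟩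
    have h4 := hW.nonneg v (mem_Fs.1 hv).1 j
    rw [Pi.add_apply]
    by_cases hjl : j = l
    · subst hjl
      omega
    · have := hm2 j hj hjl
      omega
  fin0 := fun c => (MMs_fin hW hκ a c).subset fun m hm => ⟨hm.1.1, hm.2⟩
  finL := fun l c => (MMs_fin hW hκ a c).subset fun m hm => ⟨hm.1.1, hm.2⟩
  lb := fun m hm => MMs_lb hW hκ a m hm.1

end MP_b07157_agE1
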