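import Mathlib
import Pool.Agent.Lib.MP_b07157_agE1.FaceGeo

/-!
# Admissible exponents of a face
-/

namespace MP_b07157_agE1

open Finset Module Matrix
open MPb07157T (et ee H2 Fs WOK rdot LFun SuppIn Deg Eop gi vec)

variable {n : ℕ}

/-- value of an integral form at a rational vector -/
def Hq (h : Fin n → ℤ) (b : Fin n → ℚ) : ℚ := ∑ j, (h j : ℚ) * b j

theorem rdot_rv (h : Fin n → ℤ) (b : Fin n → ℚ) : rdot h (rv b) = ((Hq h b : ℚ) : ℝ) := by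
  unfold rdot Hq rv
  push_cast
  rfl

theorem Hq_int (h m : Fin n → ℤ) : Hq h (fun j => (m j : ℚ)) = ((h ⬝ᵥ m : ℤ) : ℚ) := by
  unfold Hq dotProduct
  push_cast
  rfl

theorem Hq_ee (j : Fin n) (b : Fin n → ℚ) : Hq (ee j) b = b j := by
  classical
  unfold Hq ee
  rw [Finset.sum_eq_single j]
  · rw [Pi.single_eq_same]; simp
  · intro i _ hi
    rw [Pi.single_eq_of_ne hi]; simp
  · intro h; exact absurd (mem_univ j) h

theorem ee_dot (j : Fin n) (m : Fin n → ℤ) : ee j ⬝ᵥ m = m j := by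
  unfold ee
  rw [single_dotProduct, one_mul]

theorem mem_MMs_iff (Sg : Finset ((Fin n → ℤ) × ℤ)) (κ : (Fin n → ℤ) × ℤ) (b : Fin n → ℚ)
    (m : Fin n → ℤ) :
    m ∈ MMs Sg κ (rv b) ↔ κ.2 ∣ κ.1 ⬝ᵥ m ∧ ∀ h ∈ H2 Sg κ, -Hq h b ≤ ((h ⬝ᵥ m : ℤ) : ℚ) := by
  classical
  constructor
  · rintro ⟨h1, h2, h3⟩
    refine ⟨h1, fun h hh => ?_⟩
    rcases Finset.mem_union.1 hh with hh | hh
    · obtain ⟨τ, hτ, rfl⟩ := Finset.mem_image.1 hh
      have h4 := h3 τ hτ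
      rw [rdot_rv] at h4
      exact_mod_cast h4
    · obtain ⟨j, -, rfl⟩ := Finset.mem_image.1 hh
      rw [Hq_ee, ee_dot]
      have h4 : -((b j : ℚ) : ℝ) ≤ (m j : ℝ) := h2 j
      exact_mod_cast h4
  · rintro ⟨h1, h2⟩
    refine ⟨h1, fun j => ?_, fun τ hτ => ?_⟩
    · have h3 := h2 (ee j) (Finset.mem_union_right _ (Finset.mem_image_of_mem _ (mem_univ j)))
      rw [Hq_ee, ee_dot] at h3
      change -((b j : ℚ) : ℝ) ≤ (m j : ℝ)
      exact_mod_cast h3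
    · have h3 := h2 (et κ τ) (Finset.mem_union_left _ (Finset.mem_image_of_mem _ hτ))
      rw [rdot_rv]
      exact_mod_cast h3

theorem Hq_lin (h : Fin n → ℤ) (a : Fin n → ℚ) (t : ℚ) :
    Hq h (lin a t) = Hq h (fun _ => 1) + t * (Hq h a - Hq h (fun _ => 1)) := by
  unfold Hq lin
  rw [← Finset.sum_sub_distrib, Finset.mul_sum, ← Finset.sum_add_distrib]
  exact Finset.sum_congr rfl fun j _ => by ring

theorem stable_one (h : Fin n → ℤ) (a : Fin n → ℚ)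
    (hgen : Hq h a = Hq h (fun _ => 1) ∨ ∀ z : ℤ, Hq h a ≠ z) :
    ∀ᶠ t in nhds (1:ℚ), ∀ z : ℤ, (-Hq h (lin a t) ≤ z ↔ -Hq h a ≤ z) := by
  rcases hgen with h0 | hz
  · refine Filter.Eventually.of_forall fun t z => ?_
    rw [Hq_lin, h0, sub_self, mul_zero, add_zero]
  · have hcont : Continuous fun t : ℚ => Hq h (lin a t) := by
      simp only [Hq_lin]
      fun_prop
    have h1 : Hq h (lin a 1) = Hq h a := by rw [Hq_lin]; ring
    have h2 : Hq h (lin a 1) ∈ Set.Ioo ((⌊Hq h a⌋ : ℤ) : ℚ) ((⌊Hq h a⌋ : ℤ) + 1) := by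
      rw [h1]
      refine ⟨lt_of_le_of_ne (Int.floor_le _) (Ne.symm (hz _)), Int.lt_floor_add_one _⟩
    have h3 := hcont.continuousAt.eventually (isOpen_Ioo.mem_nhds h2)
    filter_upwards [h3] with t ht z
    have h4 : ⌊Hq h (lin a t)⌋ = ⌊Hq h a⌋ := by
      rw [Int.floor_eq_iff]
      exact ⟨ht.1.le, ht.2⟩
    have h5 : ∀ x : ℚ, (-x ≤ z ↔ -z ≤ ⌊x⌋) := by
      intro x
      rw [Int.le_floor, neg_le]
      push_cast
      rfl
    rw [h5, h5, h4]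

theorem stable_all (H : Finset (Fin n → ℤ)) (a : Fin n → ℚ)
    (hgen : ∀ h ∈ H, Hq h a = Hq h (fun _ => 1) ∨ ∀ z : ℤ, Hq h a ≠ z) :
    ∀ᶠ t in nhds (1:ℚ), ∀ h ∈ H, ∀ z : ℤ, (-Hq h (lin a t) ≤ z ↔ -Hq h a ≤ z) := by
  rw [Filter.eventually_all_finset]
  exact fun h hh => stable_one h a (hgen h hh)

theorem MMs_lin (Sg : Finset ((Fin n → ℤ) × ℤ)) (κ : (Fin n → ℤ) × ℤ) (a : Fin n → ℚ) (t : ℚ)
    (ht : ∀ h ∈ H2 Sg κ, ∀ z : ℤ, (-Hq h (lin a t) ≤ z ↔ -Hq h a ≤ z)) :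
    MMs Sg κ (rv (lin a t)) = MMs Sg κ (rv a) := by
  ext m
  rw [mem_MMs_iff, mem_MMs_iff]
  constructor
  · rintro ⟨h1, h2⟩
    exact ⟨h1, fun h hh => (ht h hh _).1 (h2 h hh)⟩
  · rintro ⟨h1, h2⟩
    exact ⟨h1, fun h hh => (ht h hh _).2 (h2 h hh)⟩

/-- integrality: for `p = 1 mod q` the vector `(p - 1) b` is divisible by `N` -/
theorem exists_beta (b : Fin n → ℚ) (N : ℤ) (hN : 0 < N) :
    ∃ q : ℕ, 0 < q ∧ ∀ p : ℕ, p.Prime → p ≡ 1 [MOD q] →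
      ∃ (γ : Fin n → ℤ) (s : ℤ), (p : ℤ) = 1 + N * s ∧
        ∀ l, (((N • γ) l : ℤ) : ℚ) = ((p : ℚ) - 1) * b l := by
  let D : ℕ := ∏ j, (b j).den
  have hD : 0 < D := Finset.prod_pos fun j _ => (b j).den_pos
  refine ⟨N.natAbs * D, Nat.mul_pos (Int.natAbs_pos.2 hN.ne') hD, ?_⟩
  intro p hp hpq
  have h1 : N.natAbs * D ∣ p - 1 := (Nat.modEq_iff_dvd' hp.one_le).1 hpq.symm
  obtain ⟨s, hs⟩ := h1
  have hNa : (N.natAbs : ℤ) = N := Int.natAbs_of_nonneg hN.le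
  have h2 : (p : ℤ) - 1 = N * D * s := by
    have h3 : ((p - 1 : ℕ) : ℤ) = (p : ℤ) - 1 := by
      rw [Nat.cast_sub hp.one_le]; simp
    rw [← h3, hs]
    push_cast
    rw [← Int.natCast_natAbs, hNa]
  have hdvd : ∀ l, ∃ e : ℕ, D = (b l).den * e := fun l => Finset.dvd_prod_of_mem _ (mem_univ l)
  choose e he using hdvd
  refine ⟨fun l => s * (e l : ℤ) * (b l).num, D * s, by linarith [h2, mul_assoc N (D:ℤ) s], ?_⟩
  intro l
  have h4 : (D : ℚ) = (b l).den * e l := by exact_mod_cast he l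
  have h5 : (p : ℚ) - 1 = N * D * s := by exact_mod_cast h2
  have h6 : b l * (b l).den = (b l).num := Rat.mul_den_eq_num (b l)
  rw [Pi.smul_apply, smul_eq_mul, h5, h4]
  push_cast
  rw [← h6]
  ring

theorem adm_lin {F : (Fin n → ℤ) →₀ ℂ} {Sg : Finset ((Fin n → ℤ) × ℤ)} (hW : WOK Sg F)
    {κ : (Fin n → ℤ) × ℤ} (hκ : κ ∈ Sg) (a : Fin n → ℚ) (S : Finset (Fin n))
    (haS1 : ∀ j ∈ S, a j = 1) (t : ℚ)
    (ht : ∀ h ∈ H2 Sg κ, ∀ z : ℤ, (-Hq h (lin a t) ≤ z ↔ -Hq h a ≤ z)) :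
    Adm (faceGeo hW hκ a S haS1) (lin a t) := by
  have hb1 : ∀ j ∈ S, lin a t j = 1 := by
    intro j hj
    simp [lin, haS1 j hj]
  have hN : 0 < κ.2 := hW.posN κ hκ
  refine ⟨?_, ?_⟩
  · rintro l ⟨m, hm, hm0⟩
    by_cases hl : l ∈ S
    · exact hb1 l hl
    · exfalso
      apply hm0
      exact ⟨hm.1, fun j hj => hm.2 j hj (fun h => hl (h ▸ hj))⟩
  · obtain ⟨q, hq, hqp⟩ := exists_beta (lin a t) κ.2 hN
    refine ⟨q, hq, fun p hp hpq => ?_⟩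
    obtain ⟨γ, s, hs, hγ⟩ := hqp p hp hpq
    refine ⟨κ.2 • γ, hγ, ?_⟩
    have hp0 : (0:ℚ) < p := by exact_mod_cast hp.pos
    have key : ∀ m : Fin n → ℤ, κ.2 • γ + p • m ∈ MMs Sg κ (rv a) ↔ m ∈ MMs Sg κ (rv a) := by
      intro m
      rw [← MMs_lin Sg κ a t ht, mem_MMs_iff, mem_MMs_iff]
      have e1 : κ.2 ∣ κ.1 ⬝ᵥ (κ.2 • γ + p • m) ↔ κ.2 ∣ κ.1 ⬝ᵥ m := by
        have h1 : κ.1 ⬝ᵥ (κ.2 • γ + p • m) = κ.1 ⬝ᵥ m +
            κ.2 * (κ.1 ⬝ᵥ γ + s * (κ.1 ⬝ᵥ m)) := by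
          rw [dotProduct_add, dotProduct_smul, dotProduct_smul, nsmul_eq_mul, hs, smul_eq_mul]
          ring
        rw [h1]
        exact (dvd_add_left (Dvd.intro _ rfl))
      have e2 : ∀ h : Fin n → ℤ, (-Hq h (lin a t) ≤ ((h ⬝ᵥ (κ.2 • γ + p • m) : ℤ) : ℚ)) ↔
          (-Hq h (lin a t) ≤ ((h ⬝ᵥ m : ℤ) : ℚ)) := by
        intro h
        have h1 : ((h ⬝ᵥ (κ.2 • γ + p • m) : ℤ) : ℚ) = ((p:ℚ) - 1) * Hq h (lin a t) +
            p * ((h ⬝ᵥ m : ℤ) : ℚ) := by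
          rw [dotProduct_add, dotProduct_smul (p : ℕ), nsmul_eq_mul]
          push_cast
          congr 1
          rw [← Hq_int]
          unfold Hq
          rw [Finset.mul_sum]
          refine Finset.sum_congr rfl fun j _ => ?_
          change (h j : ℚ) * (((κ.2 • γ) j : ℤ) : ℚ) = _
          rw [hγ j]
          ring
        rw [h1]
        constructor
        · intro h2
          have h3 : 0 ≤ p * (Hq h (lin a t) + ((h ⬝ᵥ m : ℤ) : ℚ)) := by linarith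
          have h4 := nonneg_of_mul_nonneg_right h3 hp0
          linarith
        · intro h2
          have h4 : 0 ≤ Hq h (lin a t) + ((h ⬝ᵥ m : ℤ) : ℚ) := by linarith
          have h3 := mul_nonneg hp0.le h4
          linarith
      rw [e1]
      constructor
      · rintro ⟨h1, h2⟩
        exact ⟨h1, fun h hh => (e2 h).1 (h2 h hh)⟩
      · rintro ⟨h1, h2⟩
        exact ⟨h1, fun h hh => (e2 h).2 (h2 h hh)⟩
    have keyS : ∀ m : Fin n → ℤ, ∀ j ∈ S, (0 ≤ (κ.2 • γ + p • m) j ↔ 0 ≤ m j) := by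
      intro m j hj
      have h1 : (κ.2 • γ) j = (p : ℤ) - 1 := by
        have := hγ j
        rw [hb1 j hj, mul_one] at this
        exact_mod_cast this
      rw [Pi.add_apply, h1, Pi.smul_apply, nsmul_eq_mul]
      have hp1 : (0:ℤ) < p := by exact_mod_cast hp.pos
      constructor
      · intro h2
        by_contra h3
        push Not at h3
        have h4 : m j ≤ -1 := by omega
        nlinarith
      · intro h2
        have h4 := mul_nonneg hp1.le h2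
        have h5 : (1:ℤ) ≤ p := hp1
        linarith
    exact
      { h0 := fun m => by
          constructor
          · rintro ⟨h1, h2⟩
            exact ⟨(key m).1 h1, fun j hj => (keyS m j hj).1 (h2 j hj)⟩
          · rintro ⟨h1, h2⟩
            exact ⟨(key m).2 h1, fun j hj => (keyS m j hj).2 (h2 j hj)⟩
        h := fun l m => by
          constructor
          · rintro ⟨h1, h2⟩
            exact ⟨(key m).1 h1, fun j hj hjl => (keyS m j hj).1 (h2 j hj hjl)⟩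
          · rintro ⟨h1, h2⟩
            exact ⟨(key m).2 h1, fun j hj hjl => (keyS m j hj).2 (h2 j hj hjl)⟩ }

theorem hadm_face {F : (Fin n → ℤ) →₀ ℂ} {Sg : Finset ((Fin n → ℤ) × ℤ)} (hW : WOK Sg F)
    {κ : (Fin n → ℤ) × ℤ} (hκ : κ ∈ Sg) (a : Fin n → ℚ) (S : Finset (Fin n))
    (haS1 : ∀ j ∈ S, a j = 1)
    (hgen : ∀ h ∈ H2 Sg κ, Hq h a = Hq h (fun _ => 1) ∨ ∀ z : ℤ, Hq h a ≠ z) :
    {t : ℚ | Adm (faceGeo hW hκ a S haS1) (lin a t)}.Infinite := by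
  have h1 : {t : ℚ | Adm (faceGeo hW hκ a S haS1) (lin a t)} ∈ nhds (1:ℚ) := by
    filter_upwards [stable_all (H2 Sg κ) a hgen] with t ht
    exact adm_lin hW hκ a S haS1 t ht
  exact infinite_of_mem_nhds 1 h1

end MP_b07157_agE1
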