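import Mathlib
import Pool.Agent.Lib.MP_b07157_agE1.FaceAdm

/-!
# Finiteness for a face: `HF` and the step
-/

namespace MP_b07157_agE1

open Finset Module Matrix
open MPb07157T (et ee H2 Fs WOK rdot LFun SuppIn Deg Eop)

variable {n : ℕ}

theorem th_apply {k : Type*} [Field k] (b : Fin n → k) (l : Fin n) (w : Fn k n) (m : Lat n) :
    (th b l w) m = ((m l : k) + b l) * w m := by
  induction w using Finsupp.induction_linear with
  | zero => simp
  | add f g hf hg => rw [map_add, Finsupp.add_apply, Finsupp.add_apply, hf, hg, mul_add]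
  | single m' r =>
    rw [th_single]
    by_cases h : m' = m
    · subst h; simp
    · rw [Finsupp.single_apply, Finsupp.single_apply, if_neg h, if_neg h, mul_zero]

theorem Fop_apply {k : Type*} [Field k] (S : Finset (Lat n)) (c : Lat n → k) (l : Fin n)
    (w : Fn k n) (m : Lat n) :
    (Fop S c l w) m = ∑ v ∈ S, c v * (v l : k) * w (m - v) := by
  unfold Fop
  rw [LinearMap.sum_apply, Finsupp.finsetSum_apply]
  refine Finset.sum_congr rfl fun v _ => ?_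
  rw [LinearMap.smul_apply, Finsupp.smul_apply, sh_apply, smul_eq_mul]

theorem Fop_apply' {k : Type*} [Field k] (F : Lat n →₀ k) (l : Fin n)
    (w : Fn k n) (m : Lat n) :
    (Fop F.support (fun v => F v) l w) m =
      ∑ v ∈ w.support, w v * (((m - v) l : ℤ) : k) * F (m - v) := by
  classical
  rw [Fop_apply]
  refine Finset.sum_bij_ne_zero (fun v _ _ => m - v) ?_ ?_ ?_ ?_
  · intro v _ hv
    rw [Finsupp.mem_support_iff]
    exact right_ne_zero_of_mul hv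
  · intro v _ _ v' _ _ h
    exact sub_right_injective h
  · intro v hv hv0
    refine ⟨m - v, ?_, ?_, ?_⟩
    · rw [Finsupp.mem_support_iff]
      exact right_ne_zero_of_mul hv0
    · rw [sub_sub_cancel]
      intro h
      apply hv0
      rw [← h]; ring
    · exact sub_sub_cancel m v
  · intro v _ _
    rw [sub_sub_cancel]
    ring

section

variable {F : (Fin n → ℤ) →₀ ℂ} {Sg : Finset ((Fin n → ℤ) × ℤ)} (hW : WOK Sg F)
  {κ : (Fin n → ℤ) × ℤ} (hκ : κ ∈ Sg) (a : Fin n → ℚ) (S : Finset (Fin n))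
  (haS1 : ∀ j ∈ S, a j = 1)

include hW hκ in
theorem H2_nonneg {v : Fin n → ℤ} (hv : v ∈ (Fs κ F).support) {h : Fin n → ℤ}
    (hh : h ∈ H2 Sg κ) : 0 ≤ h ⬝ᵥ v := by
  classical
  obtain ⟨hvF, hvκ⟩ := mem_Fs.1 hv
  rcases Finset.mem_union.1 hh with hh | hh
  · obtain ⟨τ, hτ, rfl⟩ := Finset.mem_image.1 hh
    rw [et_dot, hvκ]
    have h6 := hW.le τ hτ v hvF
    have h7 := hW.posN κ hκ
    nlinarith
  · obtain ⟨j, -, rfl⟩ := Finset.mem_image.1 hh
    rw [ee_dot]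
    exact hW.nonneg v hvF j

theorem hf_face : ∃ J, HF (faceGeo hW hκ a S haS1) (fun v => (Fs κ F) v) J := by
  classical
  let c : (Fin n → ℤ) → ℤ := fun h => if ∃ j ∈ S, h = ee j then 0 else ⌈-Hq h a⌉
  have hfin := MPb07157T.fin_bad (H2 Sg κ) (Fs κ F) (fun v hv h hh => H2_nonneg hW hκ hv hh)
    (hW.nd κ hκ) c
  obtain ⟨B, hB⟩ := (hfin.toFinset.image fun m => κ.1 ⬝ᵥ m).exists_le
  refine ⟨B + 1, ?_⟩
  intro m hm hd
  have hd' : B + 1 ≤ κ.1 ⬝ᵥ m := hd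
  have hm1 : m ∈ MMs Sg κ (rv a) := hm.1
  have hm2 : ∀ j ∈ S, 0 ≤ m j := hm.2
  rw [mem_MMs_iff] at hm1
  have hc : ∀ h ∈ H2 Sg κ, c h ≤ h ⬝ᵥ m := by
    intro h hh
    by_cases hj : ∃ j ∈ S, h = ee j
    · have e : c h = 0 := if_pos hj
      obtain ⟨j, hj, rfl⟩ := hj
      rw [e, ee_dot]
      exact hm2 j hj
    · have e : c h = ⌈-Hq h a⌉ := if_neg hj
      rw [e]
      exact Int.ceil_le.2 (hm1.2 h hh)
  have hnb : ∃ g : Fin n → ((Fin n → ℤ) →₀ ℂ), (∀ i, ∀ v ∈ (g i).support,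
      ∀ h ∈ H2 Sg κ, c h ≤ h ⬝ᵥ v) ∧
        ∀ m' : Fin n → ℤ,
          (∑ i, ∑ v ∈ (g i).support, (g i) v * (((m' - v) i : ℤ) : ℂ) * (Fs κ F) (m' - v)) =
            if m' = m then 1 else 0 := by
    by_contra hcon
    have h1 : m ∈ hfin.toFinset := by
      rw [Set.Finite.mem_toFinset]
      exact ⟨hc, hcon⟩
    have h2 : κ.1 ⬝ᵥ m ≤ B := hB _ (Finset.mem_image_of_mem (fun m => κ.1 ⬝ᵥ m) h1)
    omega
  obtain ⟨g, hg, hgm⟩ := hnb
  have hTF : TF (faceGeo hW hκ a S haS1) (fun v => (Fs κ F) v) g = Finsupp.single m 1 := by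
    ext m'
    rw [TF_apply, Finsupp.finsetSum_apply, Finsupp.single_apply]
    have h1 := hgm m'
    simp only [eq_comm (a := m)]
    rw [← h1]
    exact Finset.sum_congr rfl fun l _ => Fop_apply' (Fs κ F) l (g l) m'
  have h3 := pd_TF (faceGeo hW hκ a S haS1) (fun v => (Fs κ F) v)
    (fun j => j = (faceGeo hW hκ a S haS1).dg m) g
  rw [hTF, pd_single_mem _ _ (by exact rfl)] at h3
  refine ⟨_, ?_, h3.symm⟩
  rw [mem_UP]
  intro l
  rw [Finsupp.mem_supported]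
  intro v hv
  have h4 : pd {m' | (faceGeo hW hκ a S haS1).dg m' + (faceGeo hW hκ a S haS1).N =
      (faceGeo hW hκ a S haS1).dg m} (g l) ∈ Finsupp.supported ℂ ℂ
      (((g l).support : Set (Lat n)) ∩ {m' | (faceGeo hW hκ a S haS1).dg m' +
        (faceGeo hW hκ a S haS1).N = (faceGeo hW hκ a S haS1).dg m}) :=
    pd_mem _ _ _ (Finsupp.mem_supported_support ℂ (g l))
  rw [Finsupp.mem_supported] at h4
  obtain ⟨h5, h6⟩ := h4 hv
  have h6' : κ.1 ⬝ᵥ v + κ.2 = κ.1 ⬝ᵥ m := h6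
  have h7 := hg l v h5
  refine ⟨⟨?_, ?_⟩, ?_⟩
  · rw [mem_MMs_iff]
    refine ⟨?_, fun h hh => ?_⟩
    · have h8 : κ.1 ⬝ᵥ v = κ.1 ⬝ᵥ m - κ.2 := by omega
      rw [h8]
      exact dvd_sub hm1.1 (dvd_refl _)
    · have h8 := h7 h hh
      by_cases hj : ∃ j ∈ S, h = ee j
      · have e : c h = 0 := if_pos hj
        obtain ⟨j, hj, rfl⟩ := hj
        rw [e, ee_dot] at h8
        rw [Hq_ee, haS1 j hj, ee_dot]
        have h9 : (0:ℚ) ≤ (v j : ℚ) := by exact_mod_cast h8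
        linarith
      · have e : c h = ⌈-Hq h a⌉ := if_neg hj
        rw [e] at h8
        exact Int.ceil_le.1 h8
  · intro j hj _
    have h8 := h7 (ee j) (Finset.mem_union_right _ (Finset.mem_image_of_mem _ (mem_univ j)))
    have e : c (ee j) = 0 := if_pos ⟨j, hj, rfl⟩
    rw [e, ee_dot] at h8
    exact h8
  · change κ.1 ⬝ᵥ v = κ.1 ⬝ᵥ m - κ.2
    omega

theorem step_face (hcut : ∀ q : Fin n → ℝ, (∀ j, 0 ≤ q j) →
      (∀ σ ∈ Sg, (σ.2 : ℝ) ≤ rdot σ.1 q) →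
      ∃ l : (Fin n → ℤ) → ℝ, (∀ v ∈ F.support, 0 ≤ l v) ∧ ∑ v ∈ F.support, l v = 1 ∧
        ∀ j, ∑ v ∈ F.support, l v * (v j : ℝ) ≤ q j) :
    ∃ J' : ℤ, ∀ m ∈ (faceGeo hW hκ a S haS1).L0, J' ≤ (faceGeo hW hκ a S haS1).dg m →
      ∃ v ∈ (faceGeo hW hκ a S haS1).S, m - v ∈ (faceGeo hW hκ a S haS1).L0 := by
  classical
  have hN := hW.posN κ hκ
  have hNr : (0:ℝ) < κ.2 := by exact_mod_cast hN
  -- the bound
  obtain ⟨J', hJ'⟩ : ∃ J' : ℤ, (2 * (F.support.card : ℝ) + 1) * κ.2 - rdot κ.1 (rv a) ≤ J' :=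
    ⟨⌈(2 * (F.support.card : ℝ) + 1) * κ.2 - rdot κ.1 (rv a)⌉, Int.le_ceil _⟩
  refine ⟨J', ?_⟩
  intro m hm hd
  have hd' : J' ≤ κ.1 ⬝ᵥ m := hd
  obtain ⟨hdv, hma, hmt⟩ := hm.1
  let p : Fin n → ℝ := (fun i => (m i : ℝ)) + rv a
  have hp0 : ∀ j, 0 ≤ p j := by
    intro j
    have := hma j
    change 0 ≤ (m j : ℝ) + rv a j
    linarith
  have hκp : rdot κ.1 p = ((κ.1 ⬝ᵥ m : ℤ) : ℝ) + rdot κ.1 (rv a) := by
    rw [rdot_add, rdot_int]
  let t : ℝ := rdot κ.1 p / κ.2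
  have ht1 : 2 * (F.support.card : ℝ) + 1 ≤ t := by
    rw [le_div_iff₀ hNr, hκp]
    have : (J' : ℝ) ≤ ((κ.1 ⬝ᵥ m : ℤ) : ℝ) := by exact_mod_cast hd'
    linarith
  have hcard0 : (0:ℝ) ≤ (F.support.card : ℝ) := Nat.cast_nonneg _
  have ht0 : 0 < t := by linarith
  let q : Fin n → ℝ := t⁻¹ • p
  have hq0 : ∀ j, 0 ≤ q j := fun j => mul_nonneg (inv_nonneg.2 ht0.le) (hp0 j)
  have hκq : rdot κ.1 q = κ.2 := by
    rw [rdot_smul]
    have h1 : rdot κ.1 p = t * κ.2 := by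
      change _ = rdot κ.1 p / κ.2 * κ.2
      field_simp
    rw [h1]
    field_simp
  have hetp : ∀ τ ∈ Sg, 0 ≤ rdot (et κ τ) p := by
    intro τ hτ
    have h1 := hmt τ hτ
    rw [rdot_add, rdot_int]
    linarith
  have het : ∀ (τ : (Fin n → ℤ) × ℤ) (x : Fin n → ℝ),
      rdot (et κ τ) x = κ.2 * rdot τ.1 x - τ.2 * rdot κ.1 x := by
    intro τ x
    unfold rdot et
    rw [Finset.mul_sum, Finset.mul_sum, ← Finset.sum_sub_distrib]
    refine Finset.sum_congr rfl fun i _ => ?_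
    simp only [Pi.sub_apply, Pi.smul_apply, smul_eq_mul]
    push_cast
    ring
  have hqS : ∀ σ ∈ Sg, (σ.2 : ℝ) ≤ rdot σ.1 q := by
    intro σ hσ
    have h1 : 0 ≤ rdot (et κ σ) q := by
      rw [rdot_smul]
      exact mul_nonneg (inv_nonneg.2 ht0.le) (hetp σ hσ)
    rw [het, hκq] at h1
    have h2 : 0 ≤ (κ.2:ℝ) * (rdot σ.1 q - σ.2) := by linarith
    have h3 := nonneg_of_mul_nonneg_right h2 hNr
    linarith
  obtain ⟨l, hl0, hl1, hlq⟩ := hcut q hq0 hqS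
  -- equality
  let s : Fin n → ℝ := fun j => ∑ v ∈ F.support, l v * (v j : ℝ)
  have hs1 : rdot κ.1 s = ∑ v ∈ F.support, l v * ((κ.1 ⬝ᵥ v : ℤ) : ℝ) := by
    unfold rdot
    simp only [s, Finset.mul_sum]
    rw [Finset.sum_comm]
    refine Finset.sum_congr rfl fun v _ => ?_
    unfold dotProduct
    push_cast
    rw [Finset.mul_sum]
    exact Finset.sum_congr rfl fun i _ => by ring
  have hs2 : (κ.2 : ℝ) ≤ rdot κ.1 s := by
    rw [hs1]
    have h1 : (κ.2 : ℝ) = ∑ v ∈ F.support, l v * (κ.2 : ℝ) := by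
      rw [← Finset.sum_mul, hl1, one_mul]
    rw [h1]
    refine Finset.sum_le_sum fun v hv => ?_
    refine mul_le_mul_of_nonneg_left ?_ (hl0 v hv)
    exact_mod_cast hW.le κ hκ v hv
  have hs3 : rdot κ.1 s ≤ κ.2 := by
    rw [← hκq]
    unfold rdot
    refine Finset.sum_le_sum fun j _ => ?_
    refine mul_le_mul_of_nonneg_left (hlq j) ?_
    exact_mod_cast (hW.posw κ hκ j).le
  have hs4 : rdot κ.1 s = rdot κ.1 q := by rw [hκq]; exact le_antisymm hs3 hs2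
  have hsq : ∀ j, s j = q j := by
    have h1 : ∑ j, (κ.1 j : ℝ) * (q j - s j) = 0 := by
      have : ∑ j, (κ.1 j : ℝ) * (q j - s j) = rdot κ.1 q - rdot κ.1 s := by
        unfold rdot
        rw [← Finset.sum_sub_distrib]
        exact Finset.sum_congr rfl fun j _ => by ring
      rw [this, hs4, sub_self]
    have h2 : ∀ j ∈ (univ : Finset (Fin n)), 0 ≤ (κ.1 j : ℝ) * (q j - s j) := by
      intro j _
      have h3 : (0:ℝ) ≤ κ.1 j := by exact_mod_cast (hW.posw κ hκ j).le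
      exact mul_nonneg h3 (sub_nonneg.2 (hlq j))
    intro j
    have h3 := (Finset.sum_eq_zero_iff_of_nonneg h2).1 h1 j (mem_univ j)
    have h4 : (κ.1 j : ℝ) ≠ 0 := by exact_mod_cast (hW.posw κ hκ j).ne'
    have h5 := (mul_eq_zero.1 h3).resolve_left h4
    linarith
  have hface : ∀ v ∈ F.support, l v ≠ 0 → κ.1 ⬝ᵥ v = κ.2 := by
    have h1 : ∑ v ∈ F.support, l v * (((κ.1 ⬝ᵥ v : ℤ) : ℝ) - κ.2) = 0 := by
      have : ∑ v ∈ F.support, l v * (((κ.1 ⬝ᵥ v : ℤ) : ℝ) - κ.2) =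
          rdot κ.1 s - κ.2 := by
        rw [hs1]
        have h2 : (κ.2 : ℝ) = ∑ v ∈ F.support, l v * (κ.2 : ℝ) := by
          rw [← Finset.sum_mul, hl1, one_mul]
        conv_rhs => rw [h2]
        rw [← Finset.sum_sub_distrib]
        exact Finset.sum_congr rfl fun v _ => by ring
      rw [this, hs4, hκq, sub_self]
    have h2 : ∀ v ∈ F.support, 0 ≤ l v * (((κ.1 ⬝ᵥ v : ℤ) : ℝ) - κ.2) := by
      intro v hv
      have h3 : (κ.2 : ℝ) ≤ ((κ.1 ⬝ᵥ v : ℤ) : ℝ) := by exact_mod_cast hW.le κ hκ v hv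
      exact mul_nonneg (hl0 v hv) (sub_nonneg.2 h3)
    intro v hv hlv
    have h3 := (Finset.sum_eq_zero_iff_of_nonneg h2).1 h1 v hv
    have h4 := (mul_eq_zero.1 h3).resolve_left hlv
    have h5 : ((κ.1 ⬝ᵥ v : ℤ) : ℝ) = κ.2 := by linarith
    exact_mod_cast h5
  -- a large coefficient
  obtain ⟨v, hv, hlv⟩ : ∃ v ∈ F.support, 2 ≤ t * l v := by
    by_contra hcon
    push Not at hcon
    have h1 : t * ∑ v ∈ F.support, l v ≤ ∑ v ∈ F.support, (2:ℝ) := by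
      rw [Finset.mul_sum]
      exact Finset.sum_le_sum fun v hv => (hcon v hv).le
    rw [hl1, mul_one, Finset.sum_const, nsmul_eq_mul] at h1
    linarith
  have hlv0 : l v ≠ 0 := by
    intro h
    rw [h, mul_zero] at hlv
    linarith
  have hvF : v ∈ (Fs κ F).support := mem_Fs.2 ⟨hv, hface v hv hlv0⟩
  have hpv : ∀ j, p j = t * s j := by
    intro j
    rw [hsq j]
    change p j = t * (t⁻¹ * p j)
    field_simp
  -- the difference
  have hdiff : ∀ (h : Fin n → ℤ), (∀ v' ∈ (Fs κ F).support, 0 ≤ h ⬝ᵥ v') →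
      ((h ⬝ᵥ v : ℤ) : ℝ) ≤ rdot h p - rdot h (fun i => (v i : ℝ)) := by
    intro h hh
    have h1 : rdot h p = t * ∑ v' ∈ F.support, l v' * ((h ⬝ᵥ v' : ℤ) : ℝ) := by
      have h2 : p = t • s := by
        funext j
        exact hpv j
      rw [h2, rdot_smul]
      congr 1
      unfold rdot
      simp only [s, Finset.mul_sum]
      rw [Finset.sum_comm]
      refine Finset.sum_congr rfl fun v _ => ?_
      unfold dotProduct
      push_cast
      rw [Finset.mul_sum]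
      exact Finset.sum_congr rfl fun i _ => by ring
    rw [rdot_int, h1]
    have h3 : l v * ((h ⬝ᵥ v : ℤ) : ℝ) ≤ ∑ v' ∈ F.support, l v' * ((h ⬝ᵥ v' : ℤ) : ℝ) := by
      refine Finset.single_le_sum (f := fun v' => l v' * ((h ⬝ᵥ v' : ℤ) : ℝ)) ?_ hv
      intro v' hv'
      by_cases h0 : l v' = 0
      · simp [h0]
      · have h4 := hh v' (mem_Fs.2 ⟨hv', hface v' hv' h0⟩)
        have h5 : (0:ℝ) ≤ ((h ⬝ᵥ v' : ℤ) : ℝ) := by exact_mod_cast h4
        exact mul_nonneg (hl0 v' hv') h5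
    have h6 := mul_le_mul_of_nonneg_left h3 ht0.le
    have h7 : (0:ℝ) ≤ ((h ⬝ᵥ v : ℤ) : ℝ) := by exact_mod_cast hh v hvF
    have h8 : 2 * ((h ⬝ᵥ v : ℤ) : ℝ) ≤ t * (l v * ((h ⬝ᵥ v : ℤ) : ℝ)) := by
      rw [← mul_assoc]
      exact mul_le_mul_of_nonneg_right hlv h7
    linarith
  refine ⟨v, hvF, ?_, ?_⟩
  · refine ⟨?_, ?_, ?_⟩
    · rw [dotProduct_sub, hface v hv hlv0]
      exact dvd_sub hdv (dvd_refl _)
    · intro j
      have h1 := hdiff (ee j) (fun v' hv' => by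
        rw [ee_dot]; exact hW.nonneg v' (mem_Fs.1 hv').1 j)
      have h2 : (0:ℝ) ≤ ((ee j ⬝ᵥ v : ℤ) : ℝ) := by
        rw [ee_dot]
        exact_mod_cast hW.nonneg v hv j
      rw [rdot_int] at h1
      have h3 : rdot (ee j) p = (m j : ℝ) + rv a j := by
        rw [rdot_add, rdot_int, rdot_rv, Hq_ee, ee_dot]
        rfl
      rw [h3, ee_dot] at h1
      rw [ee_dot] at h2
      rw [Pi.sub_apply]
      push_cast
      linarith
    · intro τ hτ
      have h1 := hdiff (et κ τ) (fun v' hv' => H2_nonneg hW hκ hv'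
        (Finset.mem_union_left _ (Finset.mem_image_of_mem _ hτ)))
      have h2 : (0:ℝ) ≤ ((et κ τ ⬝ᵥ v : ℤ) : ℝ) := by
        exact_mod_cast H2_nonneg hW hκ hvF
          (Finset.mem_union_left _ (Finset.mem_image_of_mem _ hτ))
      rw [rdot_int, rdot_add, rdot_int] at h1
      rw [dotProduct_sub]
      push_cast
      linarith
  · intro j hj
    have hmj := hm.2 j hj
    have hvj := hW.nonneg v hv j
    rw [Pi.sub_apply]
    by_cases h0 : v j = 0
    · rw [h0, sub_zero]; exact hmj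
    · have h1 := hdiff (ee j) (fun v' hv' => by
        rw [ee_dot]; exact hW.nonneg v' (mem_Fs.1 hv').1 j)
      rw [rdot_int] at h1
      have h3 : rdot (ee j) p = (m j : ℝ) + rv a j := by
        rw [rdot_add, rdot_int, rdot_rv, Hq_ee, ee_dot]
        rfl
      rw [h3, ee_dot] at h1
      have h4 : rv a j = 1 := by
        unfold rv
        rw [haS1 j hj]
        norm_num
      rw [h4] at h1
      have h5 : v j ≤ m j + 1 - v j := by exact_mod_cast h1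
      omega

end

end MP_b07157_agE1
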