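import Mathlib
import Pool.Agent.Lib.MP_b07157_agE1.FaceGeo
import Pool.Agent.Lib.MP_b07157_agT.T1A

/-!
# Components of functions with values in the exterior algebra
-/

namespace MP_b07157_agE1

open Finset Module Matrix
open MPb07157T (et ee H2 Fs WOK rdot LFun SuppIn Deg Eop gi Lam con Fil iF)

theorem p1_gi_gen {R M : Type*} [CommRing R] [AddCommGroup M] [Module R M] (ξ : M)
    (x : ExteriorAlgebra R M) :
    ExteriorAlgebra.ιInv (ExteriorAlgebra.ι R ξ * x) = ExteriorAlgebra.algebraMapInv x • ξ := by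
  let : Module Rᵐᵒᵖ M := Module.compHom _ ((RingHom.id R).fromOpposite mul_comm)
  have : IsCentralScalar R M := ⟨fun r m => rfl⟩
  have h0 : ∀ y : ExteriorAlgebra R M,
      (ExteriorAlgebra.toTrivSqZeroExt y).fst = ExteriorAlgebra.algebraMapInv y := by
    intro y
    have : (TrivSqZeroExt.fstHom R R M).comp
        (ExteriorAlgebra.toTrivSqZeroExt (R := R) (M := M)) = ExteriorAlgebra.algebraMapInv := by
      refine ExteriorAlgebra.hom_ext ?_
      ext ξ
      simp [ExteriorAlgebra.algebraMapInv]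
    exact congrArg (fun f => f y) this
  have h1 : ∀ y : ExteriorAlgebra R M,
      ExteriorAlgebra.ιInv y = (ExteriorAlgebra.toTrivSqZeroExt y).snd := fun y => rfl
  rw [h1, map_mul, TrivSqZeroExt.snd_mul, h0]
  have h2 : ExteriorAlgebra.toTrivSqZeroExt (ExteriorAlgebra.ι R ξ) = TrivSqZeroExt.inr ξ :=
    ExteriorAlgebra.toTrivSqZeroExt_ι ξ
  have h3 : ExteriorAlgebra.algebraMapInv (ExteriorAlgebra.ι R ξ) = (0 : R) := by
    rw [ExteriorAlgebra.algebraMapInv, ExteriorAlgebra.lift_ι_apply]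
    rfl
  rw [h2, h3, TrivSqZeroExt.snd_inr, zero_smul, zero_add, h0]
  rfl

variable {n : ℕ} {k : Type} [Field k]

/-- degree 0 part -/
noncomputable def p0 : Lam k n →ₐ[k] k := ExteriorAlgebra.algebraMapInv

/-- degree 1 part -/
noncomputable def p1 : Lam k n →ₗ[k] (Fin n → k) := ExteriorAlgebra.ιInv

theorem p0_gi (ξ : Fin n → k) (x : Lam k n) : p0 (gi ξ * x) = 0 := by
  have h : p0 (gi ξ : Lam k n) = 0 := by
    unfold p0 gi ExteriorAlgebra.algebraMapInv
    rw [ExteriorAlgebra.lift_ι_apply]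
    rfl
  rw [map_mul, h, zero_mul]

theorem p1_gi (ξ : Fin n → k) (x : Lam k n) : p1 (gi ξ * x) = p0 x • ξ :=
  p1_gi_gen ξ x

theorem p0_con {x : Lam k n} (hx : x ∈ Fil k n 1) (v : Fin n → k) :
    p0 (con v x) = v ⬝ᵥ p1 x := by
  refine MPb07157T.Fil_succ_induction (d := 0) (P := fun x => p0 (con v x) = v ⬝ᵥ p1 x)
    ?_ ?_ hx
  · intro ξ y _
    rw [MPb07157T.con_gi_mul, map_sub, p0_gi, sub_zero, map_smul, p1_gi, dotProduct_smul,
      smul_eq_mul, smul_eq_mul, mul_comm]
  · intro x y hx hy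
    rw [map_add, map_add, hx, hy, map_add, dotProduct_add]

theorem filled_comp {x : Lam k n} (hx : x ∈ Fil k n 1) (j l : Fin n) (hjl : l ≠ j)
    (h : gi (MPb07157T.vec k (ee j)) * x = 0) : p1 x l = 0 := by
  classical
  have e1 : ∀ i : Fin n, ∀ y : Fin n → k, MPb07157T.vec k (ee i) ⬝ᵥ y = y i := by
    intro i y
    have : MPb07157T.vec k (ee i) = Pi.single i 1 := by
      funext i'
      unfold MPb07157T.vec ee
      by_cases h : i' = i
      · subst h; simp
      · rw [Pi.single_eq_of_ne h, Pi.single_eq_of_ne h, Int.cast_zero]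
    rw [this, single_dotProduct, one_mul]
  have h1 := congrArg (con (MPb07157T.vec k (ee l))) h
  rw [MPb07157T.con_gi_mul, map_zero, e1] at h1
  have h2 : MPb07157T.vec k (ee j) l = 0 := by
    unfold MPb07157T.vec ee
    rw [Pi.single_eq_of_ne hjl, Int.cast_zero]
  rw [h2, zero_smul, zero_sub, neg_eq_zero] at h1
  have h3 := congrArg p1 h1
  rw [p1_gi, map_zero] at h3
  have h4 := congrFun h3 j
  rw [Pi.smul_apply, p0_con hx, e1] at h4
  have h5 : MPb07157T.vec k (ee j) j = 1 := by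
    unfold MPb07157T.vec ee
    rw [Pi.single_eq_same, Int.cast_one]
  rw [h5, smul_eq_mul, mul_one] at h4
  exact h4

end MP_b07157_agE1
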