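import Mathlib
import Pool.Agent.Lib.MP_b07157_agE1.FaceFin
import Pool.Agent.Lib.MP_b07157_agE1.FaceVec

/-!
# E1 for a face: the final statement
-/

namespace MP_b07157_agE1

open Finset Module Matrix
open MPb07157T (et ee H2 Fs WOK rdot LFun SuppIn Deg gi Lam con Fil iF)

variable {n : ℕ}

/-- **E1 for a face.**  `F` is the coefficient function, `Sg` the set of weights cutting out the
Newton polyhedron, `κ` the weight of the face, `a` a rational vector `≥ 1`, equal to `1` on the list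
`S` of filled coordinates, generic with respect to the forms of the face.  If `β δ_0` is in the
image of the full operator on the (filled) complex then `δ_0` is in the image of the symbol, with
multipliers in degree `-N`. -/
theorem e1_face {F : (Fin n → ℤ) →₀ ℂ} {Sg : Finset ((Fin n → ℤ) × ℤ)} (hW : WOK Sg F)
    (hcut : ∀ q : Fin n → ℝ, (∀ j, 0 ≤ q j) → (∀ σ ∈ Sg, (σ.2 : ℝ) ≤ rdot σ.1 q) →
      ∃ l : (Fin n → ℤ) → ℝ, (∀ v ∈ F.support, 0 ≤ l v) ∧ ∑ v ∈ F.support, l v = 1 ∧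
        ∀ j, ∑ v ∈ F.support, l v * (v j : ℝ) ≤ q j)
    {κ : (Fin n → ℤ) × ℤ} (hκ : κ ∈ Sg) (a : Fin n → ℚ) (ha : ∀ j, 1 ≤ a j)
    (haS : ∀ τ ∈ Sg, 0 ≤ ∑ j, (et κ τ j : ℚ) * a j) (S : List (Fin n))
    (haS1 : ∀ j ∈ S, a j = 1)
    (hgen : ∀ h ∈ H2 Sg κ, (∑ j, (h j : ℚ) * a j = ∑ j, (h j : ℚ)) ∨
      ∀ z : ℤ, ∑ j, (h j : ℚ) * a j ≠ z)
    (β : ℂ) (hβ : β ≠ 0) (V : LFun ℂ n)
    (hV1 : SuppIn {m | κ.2 ∣ κ.1 ⬝ᵥ m ∧ (∀ j, -(a j : ℝ) ≤ m j) ∧
      ∀ τ ∈ Sg, -rdot (et κ τ) (fun j => (a j : ℝ)) ≤ ((et κ τ ⬝ᵥ m : ℤ) : ℝ)} V)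
    (hV2 : Deg 1 V)
    (hV3 : ∀ m, ∀ j ∈ S, m j = -1 → gi (MPb07157T.vec ℂ (ee j)) * V m = 0)
    (hV4 : ∀ m, MPb07157T.Eop 1 (Fs κ F) V m = if m = 0 then algebraMap ℂ _ β else 0) :
    ∃ u : Fin n → ((Fin n → ℤ) →₀ ℂ),
      (∀ l, ∀ m ∈ (u l).support, (κ.2 ∣ κ.1 ⬝ᵥ m ∧ (∀ j, -(a j : ℝ) ≤ m j) ∧
        ∀ τ ∈ Sg, -rdot (et κ τ) (fun j => (a j : ℝ)) ≤ ((et κ τ ⬝ᵥ m : ℤ) : ℝ)) ∧
        κ.1 ⬝ᵥ m = -κ.2 ∧ ∀ j ∈ S, j ≠ l → 0 ≤ m j) ∧
      ∀ m : Fin n → ℤ, ∑ l, ∑ v ∈ (Fs κ F).support, (Fs κ F) v * (v l : ℂ) * u l (m - v) =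
        if m = 0 then 1 else 0 := by
  classical
  have haS1' : ∀ j ∈ S.toFinset, a j = 1 := fun j hj => haS1 j (List.mem_toFinset.1 hj)
  set G := faceGeo hW hκ a S.toFinset haS1' with hG
  have hgen' : ∀ h ∈ H2 Sg κ, Hq h a = Hq h (fun _ => 1) ∨ ∀ z : ℤ, Hq h a ≠ z := by
    intro h hh
    have := hgen h hh
    unfold Hq
    simpa using this
  have hadm := hadm_face hW hκ a S.toFinset haS1' hgen'
  obtain ⟨J, hF⟩ := hf_face hW hκ a S.toFinset haS1'
  have hstep := step_face hW hκ a S.toFinset haS1' hcut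
  -- the vector field
  let w : Fin n → Fn ℂ n := fun l => Finsupp.onFinset hV1.1.toFinset
    (fun m => β⁻¹ * p1 (V m) l) (fun m hm => by
      rw [Set.Finite.mem_toFinset, Function.mem_support]
      intro h
      apply hm
      rw [h, map_zero]
      simp)
  have hw0 : ∀ l m, w l m = β⁻¹ * p1 (V m) l := fun l m => rfl
  have hw : w ∈ UP G (fun _ => True) := by
    rw [mem_UP]
    intro l
    rw [Finsupp.mem_supported]
    intro m hm
    rw [Finset.mem_coe, Finsupp.mem_support_iff, hw0] at hm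
    have hVm : V m ≠ 0 := by
      intro h
      apply hm
      rw [h, map_zero]
      simp
    have h1 := hV1.2 m hVm
    refine ⟨⟨h1, fun j hj hjl => ?_⟩, trivial⟩
    have hjS : j ∈ S := List.mem_toFinset.1 hj
    have h2 : -((a j : ℚ) : ℝ) ≤ (m j : ℝ) := h1.2.1 j
    rw [haS1 j hjS] at h2
    have h3 : -1 ≤ m j := by
      have : -(1:ℝ) ≤ (m j : ℝ) := by simpa using h2
      exact_mod_cast this
    by_contra h4
    have h5 : m j = -1 := by omega
    apply hm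
    rw [filled_comp (hV2 m) j l (Ne.symm hjl) (hV3 m j hjS h5), mul_zero]
  have hTD : TD G (fun v => (Fs κ F) v) (fun _ => (1:ℂ)) w = Finsupp.single 0 1 := by
    ext m
    have h1 := congrArg p0 (hV4 m)
    have h2 : p0 (MPb07157T.Eop 1 (Fs κ F) V m) = (MPb07157T.vec ℂ m + 1) ⬝ᵥ p1 (V m) +
        ∑ v ∈ (Fs κ F).support, (Fs κ F) v * (MPb07157T.vec ℂ v ⬝ᵥ p1 (V (m - v))) := by
      unfold MPb07157T.Eop iF
      rw [map_add, map_sum, p0_con (hV2 m)]
      congr 1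
      refine Finset.sum_congr rfl fun v _ => ?_
      rw [map_smul, p0_con (hV2 _), smul_eq_mul]
    have h3 : p0 (if m = 0 then algebraMap ℂ (Lam ℂ n) β else 0) = if m = 0 then β else 0 := by
      split_ifs
      · exact p0.commutes β
      · exact map_zero _
    rw [h2, h3] at h1
    have h4 : (TD G (fun v => (Fs κ F) v) (fun _ => (1:ℂ)) w) m =
        β⁻¹ * ((MPb07157T.vec ℂ m + 1) ⬝ᵥ p1 (V m) +
        ∑ v ∈ (Fs κ F).support, (Fs κ F) v * (MPb07157T.vec ℂ v ⬝ᵥ p1 (V (m - v)))) := by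
      rw [TD_apply, Finsupp.finsetSum_apply]
      have h5 : ∀ l, (Dop G.S (fun v => (Fs κ F) v) (fun _ => (1:ℂ)) l (w l)) m =
          ((m l : ℂ) + 1) * (β⁻¹ * p1 (V m) l) +
          ∑ v ∈ (Fs κ F).support, (Fs κ F) v * (v l : ℂ) * (β⁻¹ * p1 (V (m - v)) l) := by
        intro l
        unfold Dop
        rw [LinearMap.add_apply, Finsupp.add_apply, th_apply, Fop_apply]
        rfl
      simp only [h5]
      rw [Finset.sum_add_distrib, Finset.sum_comm]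
      unfold dotProduct
      rw [mul_add, Finset.mul_sum, Finset.mul_sum]
      congr 1
      · refine Finset.sum_congr rfl fun l _ => ?_
        simp only [Pi.add_apply, Pi.one_apply, MPb07157T.vec]
        ring
      · refine Finset.sum_congr rfl fun v _ => ?_
        rw [Finset.mul_sum, Finset.mul_sum]
        refine Finset.sum_congr rfl fun l _ => ?_
        simp only [MPb07157T.vec]
        ring
    rw [h4, h1, Finsupp.single_apply]
    by_cases h0 : m = 0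
    · rw [if_pos h0, if_pos h0.symm, inv_mul_cancel₀ hβ]
    · rw [if_neg h0, if_neg (Ne.symm h0), mul_zero]
  -- the point 0
  have h0 : (0 : Lat n) ∈ G.L0 := by
    refine ⟨⟨?_, ?_, ?_⟩, ?_⟩
    · rw [dotProduct_zero]; exact dvd_zero _
    · intro j
      have h1 := ha j
      have h2 : (1:ℝ) ≤ ((a j : ℚ) : ℝ) := by exact_mod_cast h1
      change -((a j : ℚ) : ℝ) ≤ (((0 : Lat n) j : ℤ) : ℝ)
      rw [Pi.zero_apply, Int.cast_zero]
      linarith
    · intro τ hτ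
      rw [rdot_rv, dotProduct_zero, Int.cast_zero]
      have h1 := haS τ hτ
      have h2 : (0:ℝ) ≤ ((Hq (et κ τ) a : ℚ) : ℝ) := by exact_mod_cast h1
      linarith
    · intro j _
      exact le_refl _
  obtain ⟨u, hu, hu2⟩ := e1_geo G (fun v => (Fs κ F) v) a hadm J hF hstep 0 h0 w hw hTD
  refine ⟨u, ?_, ?_⟩
  · intro l m hm
    rw [mem_UP] at hu
    have h1 := hu l
    rw [Finsupp.mem_supported] at h1
    obtain ⟨⟨h2, h3⟩, h4⟩ := h1 hm
    refine ⟨h2, ?_, fun j hj hjl => h3 j (List.mem_toFinset.2 hj) hjl⟩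
    have h5 : κ.1 ⬝ᵥ m = κ.1 ⬝ᵥ (0 : Lat n) - κ.2 := h4
    rw [h5, dotProduct_zero, zero_sub]
  · intro m
    have h1 : (TF G (fun v => (Fs κ F) v) u) m = (Finsupp.single 0 1 : Fn ℂ n) m := by rw [hu2]
    rw [TF_apply, Finsupp.finsetSum_apply, Finsupp.single_apply] at h1
    have h2 : ∀ l, (Fop G.S (fun v => (Fs κ F) v) l (u l)) m =
        ∑ v ∈ (Fs κ F).support, (Fs κ F) v * (v l : ℂ) * u l (m - v) := by
      intro l
      rw [Fop_apply]
      rfl
    simp only [h2] at h1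
    rw [h1]
    simp only [eq_comm (a := (0 : Lat n))]

end MP_b07157_agE1
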