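import Mathlib
import Pool.Agent.Lib.MP_b07157_agE1.FaceEnd
import Pool.Agent.Lib.MP_b07157_agT.W0

/-!
# E1 in the form used by the assembly
-/

noncomputable section

namespace MP_b07157_agE1

open MPb07157T

/-- **E1 for a face**, in terms of Laurent polynomials. -/
theorem e1_lp {n : ℕ} {f : MvPolynomial (Fin n) ℂ} {Sg : Finset ((Fin n → ℤ) × ℤ)}
    (hcut : CutsOut Sg f) (hW : WOK Sg (Fc f)) {κ : (Fin n → ℤ) × ℤ} (hκ : κ ∈ Sg)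
    (a : Fin n → ℚ) (ha : ∀ j, 1 ≤ a j)
    (haS : ∀ τ ∈ Sg, 0 ≤ rdot (et κ τ) (fun j => ((a j : ℚ) : ℝ))) (S : List (Fin n))
    (haS1 : ∀ j ∈ S, a j = 1)
    (gen1 : ∀ τ ∈ Sg, (∑ j, (et κ τ j : ℚ) * a j = ∑ j, (et κ τ j : ℚ)) ∨
      ∀ z : ℤ, ∑ j, (et κ τ j : ℚ) * a j ≠ z)
    (gen2 : ∀ j, a j = 1 ∨ ∀ z : ℤ, a j ≠ z)
    (V : LFun ℂ n) (hV : SuppIn (MM Sg κ fun j => ((a j : ℚ) : ℝ)) V) (hV1 : Deg 1 V)
    (hV2 : ∀ m, ∀ j ∈ S, m j = -1 → gi (MPb07157T.vec ℂ (ee j)) * V m = 0) {β : ℂ} (hβ : β ≠ 0)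
    (hV3 : ∀ m, MPb07157T.Eop 1 (Fs κ (Fc f)) V m = if m = 0 then algebraMap ℂ _ β else 0) :
    ∃ u : Fin n → LP ℂ n, ∑ l, u l * thF (Fs κ (Fc f)) l = 1 ∧
      ∀ l, ∀ m ∈ (u l).coeff.support, m ∈ MM Sg κ (fun j => ((a j : ℚ) : ℝ)) ∧
        κ.1 ⬝ᵥ m = -κ.2 ∧ ∀ j ∈ S, j ≠ l → 0 ≤ m j := by
  classical
  have haS' : ∀ τ ∈ Sg, 0 ≤ ∑ j, (et κ τ j : ℚ) * a j := by
    intro τ hτ
    have h1 := haS τ hτ
    rw [show (fun j => ((a j : ℚ) : ℝ)) = rv a from rfl, rdot_rv] at h1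
    exact_mod_cast h1
  have hgen : ∀ h ∈ H2 Sg κ, (∑ j, (h j : ℚ) * a j = ∑ j, (h j : ℚ)) ∨
      ∀ z : ℤ, ∑ j, (h j : ℚ) * a j ≠ z := by
    intro h hh
    rcases Finset.mem_union.1 hh with hh | hh
    · obtain ⟨τ, hτ, rfl⟩ := Finset.mem_image.1 hh
      exact gen1 τ hτ
    · obtain ⟨j, -, rfl⟩ := Finset.mem_image.1 hh
      have h1 : ∑ i, (ee j i : ℚ) * a i = a j := Hq_ee j a
      have h2 : ∑ i, (ee j i : ℚ) = 1 := by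
        have := Hq_ee j (fun _ => (1:ℚ))
        unfold Hq at this
        simpa using this
      rw [h1, h2]
      exact gen2 j
  obtain ⟨u, hu, hu2⟩ := e1_face hW hcut hκ a ha haS' S haS1 hgen β hβ V hV hV1 hV2 hV3
  refine ⟨fun l => AddMonoidAlgebra.ofCoeff (u l), ?_, fun l m hm => hu l m hm⟩
  ext m
  rw [AddMonoidAlgebra.coeff_sum, Finsupp.finsetSum_apply, AddMonoidAlgebra.one_def,
    AddMonoidAlgebra.coeff_single, Finsupp.single_apply]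
  simp only [eq_comm (a := (0 : Fin n → ℤ))]
  rw [← hu2 m]
  refine Finset.sum_congr rfl fun l _ => ?_
  rw [coeff_mul_thF, ← Fop_apply]
  exact (Fop_apply' (Fs κ (Fc f)) l (u l) m).symm

end MP_b07157_agE1
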